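import Pool.Agent.H17.TA.Fox

/-!
The generic derivation corrected by an inner derivation detects commuting.
-/

namespace Pool.Agent.H17.TA

open Pool.Agent.H66.TA FreeAlgebra

variable {K : Type*} [Field K] (N : ℕ) [NeZero N] {L0 : Type*} [CommRing L0] [Algebra K L0]
  (π : WPair K N L0)

theorem hom_one : Hom 0 (1 : A K) := by
  rw [Hom, map_one, pow_zero, mul_one, map_one]

theorem e1_ne {m : ℕ} {h : A K} (hh : Hom m h) (h0 : h ≠ 0) (hm : m ≤ N) (i : ZMod N) :
    π.e1 (rho N h i (i + (m : ZMod N))) ≠ 0 := by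
  intro he
  have := sum_ne_zero N π hm (Nat.zero_le N) (Finset.univ : Finset Unit) ⟨(), Finset.mem_univ _⟩
    (fun _ => h) (fun _ => 1) (fun _ _ => hh) (fun _ _ => hom_one) (fun _ _ => h0)
    (by
      rw [Finset.coe_univ, linearIndepOn_univ_iff]
      exact LinearIndependent.of_subsingleton () one_ne_zero) i i
  apply this
  rw [Finset.univ_unique, Finset.sum_singleton, he, zero_mul]

theorem corr_mul {D : A K →ₗ[K] EE N L0} (hD : IsDer (t1 N π) (t2 N π) D) {Δ : Polynomial L0}
    {S : EE N L0} {P Q : A K} (hP : t1 N π P * S = S * t2 N π P + Δ • D P)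
    (hQ : t1 N π Q * S = S * t2 N π Q + Δ • D Q) :
    t1 N π (P * Q) * S = S * t2 N π (P * Q) + Δ • D (P * Q) := by
  rw [map_mul, map_mul, hD, mul_assoc, hQ, mul_add, ← mul_assoc, hP, add_mul, smul_add,
    mul_smul_comm, smul_mul_assoc, mul_assoc]
  abel

theorem corr_pow {D : A K →ₗ[K] EE N L0} (hD : IsDer (t1 N π) (t2 N π) D) {Δ : Polynomial L0}
    {S : EE N L0} {P : A K} (hP : t1 N π P * S = S * t2 N π P + Δ • D P) (n : ℕ) :
    t1 N π (P ^ n) * S = S * t2 N π (P ^ n) + Δ • D (P ^ n) := by
  induction n with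
  | zero => rw [pow_zero, map_one, map_one, hD.map_one, smul_zero, one_mul, mul_one, add_zero]
  | succ n ih => rw [pow_succ]; exact corr_mul N π hD ih hP

variable [IsDomain L0]

theorem comm_of_der {D : A K →ₗ[K] EE N L0} (hD : IsGen N π D) {m n : ℕ} {h q : A K}
    (hh : Hom m h) (hq : Hom n q) (hm : 0 < m) (hn : 0 < n) (hN : m * n ≤ N) (h0 : h ≠ 0)
    {Δ : Polynomial L0} (hΔ : Δ ≠ 0) {S : EE N L0} (hS : t1 N π h * S = S * t2 N π h + Δ • D h)
    (hqS : t1 N π q * S = S * t2 N π q + Δ • D q) : Commute q h := by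
  by_cases hq0 : q = 0
  · rw [hq0]; exact Commute.zero_left h
  have hmN : m ≤ N := le_trans (Nat.le_mul_of_pos_right m hn) hN
  -- `S ≠ 0`
  have hS0 : ∃ i j, S i j ≠ 0 := by
    by_contra hcon
    push Not at hcon
    have hS0 : S = 0 := by ext1 i j; exact hcon i j
    rw [hS0, mul_zero, zero_mul, zero_add] at hS
    have h1 := congrArg (fun M : EE N L0 => M 0 0) hS
    simp only [Matrix.zero_apply, Matrix.smul_apply, smul_eq_mul] at h1
    have h2 : D h 0 0 = 0 := (mul_eq_zero.mp h1.symm).resolve_left hΔ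
    have h3 := gen_zero N π hD hm hh 0 0
    rw [h2, Polynomial.coeff_zero] at h3
    exact e1_ne N π hh h0 hmN 0 h3.symm
  -- `s`-order of `S`
  set ν := Δ.natTrailingDegree with hν
  have hlow : ∀ k < ν, ∀ i j, (S i j).coeff k = 0 := by
    intro k
    induction k using Nat.strong_induction_on with
    | _ k ih =>
      intro hk i j
      have h1 := congrArg (fun M : EE N L0 => (M (i - (m : ZMod N)) j).coeff k) hS
      simp only [Matrix.add_apply, Matrix.smul_apply, Polynomial.coeff_add, smul_eq_mul] at h1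
      rw [t1_mul N π hh, sub_add_cancel, Polynomial.coeff_C_mul] at h1
      have h2 := mul_t2 N π hh S (i - (m : ZMod N)) (j - (m : ZMod N))
      rw [sub_add_cancel] at h2
      have h3 : (Δ * D h (i - (m : ZMod N)) j).coeff k = 0 := by
        rw [Polynomial.coeff_mul]
        apply Finset.sum_eq_zero
        intro p hp
        rw [Finset.HasAntidiagonal.mem_antidiagonal] at hp
        rw [Polynomial.coeff_eq_zero_of_lt_natTrailingDegree (by omega), zero_mul]
      have h4 : (S (i - (m : ZMod N)) (j - (m : ZMod N)) * (Polynomial.X ^ m *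
          Polynomial.C (π.e2 (rho N h (j - (m : ZMod N)) j)))).coeff k = 0 := by
        rw [mul_comm (Polynomial.X ^ m), ← mul_assoc, Polynomial.coeff_mul_X_pow']
        split_ifs with h5
        · rw [Polynomial.coeff_mul_C, ih (k - m) (by omega) (by omega), zero_mul]
        · rfl
      rw [h2, h4, h3, add_zero] at h1
      have h6 := e1_ne N π hh h0 hmN (i - (m : ZMod N))
      rw [sub_add_cancel] at h6
      exact (mul_eq_zero.mp h1).resolve_left h6
  -- the powers of the same degree
  set e := m * n with he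
  have hH : Hom e (h ^ n) := hom_pow hh n
  have hQ : Hom e (q ^ m) := by
    have := hom_pow hq m
    rwa [mul_comm n m] at this
  have he0 : 0 < e := Nat.mul_pos hm hn
  have hHS := corr_pow N π hD.1 hS n
  have hQS := corr_pow N π hD.1 hqS m
  have key : ∀ i j, S i j ≠ 0 → ∀ i', i' = i →
      π.e1 (rho N (h ^ n) i (i + (e : ZMod N))) * π.e2 (rho N (q ^ m) j (j + (e : ZMod N))) =
      π.e1 (rho N (q ^ m) i (i + (e : ZMod N))) * π.e2 (rho N (h ^ n) j (j + (e : ZMod N))) := by
    intro i j hij i' _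
    have h1 := congrArg (fun M : EE N L0 => M i (j + (e : ZMod N))) hHS
    have h2 := congrArg (fun M : EE N L0 => M i (j + (e : ZMod N))) hQS
    simp only [Matrix.add_apply, Matrix.smul_apply, smul_eq_mul] at h1 h2
    rw [t1_mul N π hH, mul_t2 N π hH] at h1
    rw [t1_mul N π hQ, mul_t2 N π hQ] at h2
    set Hi := π.e1 (rho N (h ^ n) i (i + (e : ZMod N)))
    set Qi := π.e1 (rho N (q ^ m) i (i + (e : ZMod N)))
    set Hj := π.e2 (rho N (h ^ n) j (j + (e : ZMod N)))
    set Qj := π.e2 (rho N (q ^ m) j (j + (e : ZMod N)))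
    set T := S (i + (e : ZMod N)) (j + (e : ZMod N))
    set dH := D (h ^ n) i (j + (e : ZMod N)) with hdH
    set dQ := D (q ^ m) i (j + (e : ZMod N)) with hdQ
    set κ := Polynomial.C Qi * dH - Polynomial.C Hi * dQ with hκ
    have h3 : S i j * (Polynomial.X ^ e * Polynomial.C (Hi * Qj - Qi * Hj)) = Δ * κ := by
      rw [hκ, Polynomial.C_sub, Polynomial.C_mul, Polynomial.C_mul]
      linear_combination (Polynomial.C Qi) * h1 - (Polynomial.C Hi) * h2
    have h4 : ∀ k, e ≤ k → κ.coeff k = 0 := by
      intro k hk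
      rw [hκ, Polynomial.coeff_sub, Polynomial.coeff_C_mul, Polynomial.coeff_C_mul,
        hdH, hdQ, gen_high N π hD hH _ _ _ hk, gen_high N π hD hQ _ _ _ hk, mul_zero, mul_zero,
        sub_zero]
    have h5 : κ = 0 := by
      by_contra hne
      have h6 := Polynomial.coeff_mul_natTrailingDegree_add_natTrailingDegree (p := Δ) (q := κ)
      have h7 : κ.natTrailingDegree < e := by
        by_contra hge
        rw [not_lt] at hge
        apply hne
        rw [← Polynomial.trailingCoeff_eq_zero]
        exact h4 _ hge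
      rw [← h3, mul_comm (Polynomial.X ^ e), ← mul_assoc, Polynomial.coeff_mul_X_pow'] at h6
      have h8 : Δ.trailingCoeff * κ.trailingCoeff ≠ 0 :=
        mul_ne_zero (Polynomial.trailingCoeff_nonzero_iff_nonzero.mpr hΔ)
          (Polynomial.trailingCoeff_nonzero_iff_nonzero.mpr hne)
      apply h8
      rw [← h6]
      split_ifs with h9
      · rw [Polynomial.coeff_mul_C, hlow _ (by omega), zero_mul]
      · rfl
    rw [h5, mul_zero] at h3
    have h6 := (mul_eq_zero.mp h3).resolve_left hij
    have h7 := (mul_eq_zero.mp h6).resolve_left (pow_ne_zero _ Polynomial.X_ne_zero)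
    rw [Polynomial.C_eq_zero] at h7
    exact sub_eq_zero.mp h7
  obtain ⟨i, j, hij⟩ := hS0
  have hk := key i j hij i rfl
  have hqm0 : q ^ m ≠ 0 := pow_ne_zero _ hq0
  obtain ⟨V, hVl, hV⟩ := exists_co_ne hQ hqm0
  have hprop : h ^ n = (co V (h ^ n) / co V (q ^ m)) • q ^ m := by
    apply eq_of_co
    intro U
    rw [map_smul, smul_eq_mul]
    by_cases hU : U.length = e
    · obtain ⟨l, hl⟩ := coeff_coeff N π i j U V (by omega) (by omega)
      rw [hU, hVl] at hl
      have h1 := congrArg l hk
      rw [hl, hl] at h1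
      field_simp
      rw [h1, mul_comm]
    · rw [co_hom_eq_zero hH hU, co_hom_eq_zero hQ hU, mul_zero]
  have hcomm : Commute (h ^ n) q := by
    rw [hprop]
    exact ((Commute.refl q).pow_left m).smul_left _
  exact (comm_of_pow hh hq hm hn hcomm).symm

end Pool.Agent.H17.TA
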