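import Pool.Agent.H17.TA.Inj

/-!
Derivations of the free algebra into bimodules.
-/

namespace Pool.Agent.H17.TA

open Pool.Agent.H66.TA FreeAlgebra

variable {K : Type*} [Field K]

/-- `D` is a derivation for the bimodule structure given by `r1` on the left and `r2` on the
right. -/
def IsDer {Λ : Type*} [Semiring Λ] [Algebra K Λ] (r1 r2 : A K →ₐ[K] Λ) (D : A K →ₗ[K] Λ) : Prop :=
  ∀ P Q, D (P * Q) = r1 P * D Q + D P * r2 Q

section

variable {Λ : Type*} [Ring Λ] [Algebra K Λ] {r1 r2 : A K →ₐ[K] Λ} {D D' : A K →ₗ[K] Λ}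

theorem IsDer.map_one (hD : IsDer r1 r2 D) : D 1 = 0 := by
  have h := hD 1 1
  rw [mul_one, _root_.map_one r1, _root_.map_one r2, one_mul, mul_one] at h
  simpa using h

theorem IsDer.map_algebraMap (hD : IsDer r1 r2 D) (c : K) : D (algebraMap K (A K) c) = 0 := by
  rw [Algebra.algebraMap_eq_smul_one, map_smul, hD.map_one, smul_zero]

theorem IsDer.ext (hD : IsDer r1 r2 D) (hD' : IsDer r1 r2 D') (h : ∀ i, D (x K i) = D' (x K i)) :
    D = D' := by
  ext a
  induction a using FreeAlgebra.induction with
  | grade0 c => exact (hD.map_algebraMap c).trans (hD'.map_algebraMap c).symm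
  | grade1 i => exact h i
  | mul a b ha hb => rw [hD, hD', ha, hb]
  | add a b ha hb => rw [map_add, map_add, ha, hb]

/-- Derivations with prescribed values on the generators exist. -/
theorem exists_der (r1 r2 : A K →ₐ[K] Λ) (y : Fin 3 → Λ) :
    ∃ D : A K →ₗ[K] Λ, IsDer r1 r2 D ∧ ∀ i, D (x K i) = y i := by
  let M : A K →ₐ[K] Matrix (Fin 2) (Fin 2) Λ :=
    lift K (fun i => !![r1 (x K i), y i; 0, r2 (x K i)])
  have hx : ∀ i, M (x K i) = !![r1 (x K i), y i; 0, r2 (x K i)] := fun i => by
    show lift K _ (ι K i) = _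
    rw [lift_ι_apply]
  have key : ∀ P, M P 0 0 = r1 P ∧ M P 1 0 = 0 ∧ M P 1 1 = r2 P := by
    intro P
    induction P using FreeAlgebra.induction with
    | grade0 c =>
      rw [AlgHom.commutes, AlgHom.commutes, AlgHom.commutes]
      simp [Matrix.algebraMap_matrix_apply]
    | grade1 i => 
      have := hx i
      rw [x] at this
      rw [this]
      simp
    | mul a b ha hb =>
      obtain ⟨a1, a2, a3⟩ := ha
      obtain ⟨b1, b2, b3⟩ := hb
      rw [map_mul, map_mul, map_mul]
      simp only [Matrix.mul_apply, Fin.sum_univ_two]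
      rw [a1, a2, a3, b1, b2, b3]
      simp
    | add a b ha hb =>
      obtain ⟨a1, a2, a3⟩ := ha
      obtain ⟨b1, b2, b3⟩ := hb
      rw [map_add, map_add, map_add]
      simp only [Matrix.add_apply]
      rw [a1, a2, a3, b1, b2, b3]
      simp
  refine ⟨{ toFun := fun P => M P 0 1
            map_add' := fun P Q => by rw [map_add, Matrix.add_apply]
            map_smul' := fun c P => by rw [map_smul, Matrix.smul_apply, RingHom.id_apply] },
    ?_, ?_⟩
  · intro P Q
    show M (P * Q) 0 1 = r1 P * M Q 0 1 + M P 0 1 * r2 Q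
    rw [map_mul, Matrix.mul_apply, Fin.sum_univ_two, (key P).1, (key Q).2.2]
  · intro i
    show M (x K i) 0 1 = y i
    rw [hx]
    simp

/-- Inner derivations. -/
theorem isDer_inner (r1 r2 : A K →ₐ[K] Λ) (Z : Λ) :
    IsDer r1 r2 ((LinearMap.mulRight K Z).comp r1.toLinearMap -
      (LinearMap.mulLeft K Z).comp r2.toLinearMap) := by
  intro P Q
  show r1 (P * Q) * Z - Z * r2 (P * Q) =
    r1 P * (r1 Q * Z - Z * r2 Q) + (r1 P * Z - Z * r2 P) * r2 Q
  rw [map_mul, map_mul]
  noncomm_ring

end

variable (N : ℕ) [NeZero N] {L0 : Type*} [CommRing L0] [Algebra K L0] (π : WPair K N L0)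

/-- The matrix all whose entries are `1`. -/
noncomputable def ones (N : ℕ) (L0 : Type*) [CommRing L0] : EE N L0 := Matrix.of fun _ _ => 1

/-- `D` is the generic derivation. -/
def IsGen (D : A K →ₗ[K] EE N L0) : Prop :=
  IsDer (t1 N π) (t2 N π) D ∧ ∀ i, D (x K i) = t1 N π (x K i) * ones N L0

theorem gen_word {D : A K →ₗ[K] EE N L0} (hD : IsGen N π D) (w : FreeMonoid (Fin 3)) :
    (∀ i j k, w.length ≤ k → (D (mon w) i j).coeff k = 0) ∧
    (0 < w.length → ∀ i j, (D (mon w) i j).coeff 0 = ((t1 N π (mon w) * ones N L0) i j).coeff 0) := by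
  induction w using FreeMonoid.inductionOn' with
  | one =>
    rw [mon_one, hD.1.map_one]
    refine ⟨fun i j k _ => by simp, fun h => ?_⟩
    rw [FreeMonoid.length_one] at h
    exact absurd h (lt_irrefl 0)
  | of_mul l w ih =>
    have hx1 : Hom 1 (x K l) := by rw [Hom, tp_x, pow_one]
    have hw : Hom w.length (mon (K := K) w) := tp_mon w
    have e1 : D (mon (FreeMonoid.of l * w)) = t1 N π (x K l) * D (mon w) +
        t1 N π (x K l) * ones N L0 * t2 N π (mon w) := by
      rw [mon_mul, mon_of, hD.1, hD.2]
    have e2 : ∀ i j k, (D (mon (FreeMonoid.of l * w)) i j).coeff k =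
        π.e1 (rho N (x K l) i (i + ((1 : ℕ) : ZMod N))) *
          (D (mon w) (i + ((1 : ℕ) : ZMod N)) j).coeff k +
        (if w.length ≤ k then
          π.e1 (rho N (x K l) i (i + ((1 : ℕ) : ZMod N))) *
            π.e2 (rho N (mon w) (j - (w.length : ZMod N))
              (j - (w.length : ZMod N) + (w.length : ZMod N))) *
            (ones N L0 (i + ((1 : ℕ) : ZMod N)) (j - (w.length : ZMod N))).coeff (k - w.length)
          else 0) := by
      intro i j k
      have h3 := entry_formula N π hx1 hw (ones N L0) i (j - (w.length : ZMod N))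
      rw [sub_add_cancel] at h3
      rw [e1, Matrix.add_apply, Polynomial.coeff_add, t1_mul N π hx1, Polynomial.coeff_C_mul, h3,
        coeff_entry, sub_add_cancel]
    constructor
    · intro i j k hk
      rw [FreeMonoid.length_mul, FreeMonoid.length_of] at hk
      rw [e2, ih.1 _ _ _ (by omega), mul_zero, zero_add]
      split_ifs with h
      · have : (ones N L0 (i + ((1 : ℕ) : ZMod N)) (j - (w.length : ZMod N))).coeff
            (k - w.length) = 0 := by
          rw [ones, Matrix.of_apply, Polynomial.coeff_one, if_neg (by omega)]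
        rw [this, mul_zero]
      · rfl
    · intro _ i j
      rw [e2]
      have h4 : t1 N π (mon (FreeMonoid.of l * w)) * ones N L0 =
          t1 N π (x K l) * (t1 N π (mon w) * ones N L0) := by
        rw [mon_mul, mon_of, map_mul, mul_assoc]
      rw [h4, t1_mul N π hx1, Polynomial.coeff_C_mul]
      rcases Nat.eq_zero_or_pos w.length with h | h
      · have hw1 : w = 1 := FreeMonoid.length_eq_zero.mp h
        subst hw1
        have h5 : FreeMonoid.length (1 : FreeMonoid (Fin 3)) = 0 := FreeMonoid.length_one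
        have h6 : rho (K := K) N 1 (j - ((0 : ℕ) : ZMod N))
            (j - ((0 : ℕ) : ZMod N) + ((0 : ℕ) : ZMod N)) = 1 := by
          rw [Nat.cast_zero, sub_zero, add_zero, map_one, Matrix.one_apply_eq]
        rw [mon_one, hD.1.map_one, h5, h6, map_one, map_one]
        simp [ones]
      · rw [ih.2 h, if_neg (by omega), add_zero]

theorem gen_high {D : A K →ₗ[K] EE N L0} (hD : IsGen N π D) {e : ℕ} {q : A K} (hq : Hom e q)
    (i j : ZMod N) (k : ℕ) (hk : e ≤ k) : (D q i j).coeff k = 0 := by
  let F : A K →ₗ[K] L0 :=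
    { toFun := fun q => (D q i j).coeff k
      map_add' := fun p q => by rw [map_add, Matrix.add_apply, Polynomial.coeff_add]
      map_smul' := fun c q => by
        rw [map_smul, Matrix.smul_apply, Polynomial.coeff_smul, RingHom.id_apply] }
  have : F q = (0 : A K →ₗ[K] L0) q := by
    apply hom_ext_word F 0 _ hq
    intro w hw
    exact (gen_word N π hD w).1 i j k (by omega)
  exact this

theorem gen_zero {D : A K →ₗ[K] EE N L0} (hD : IsGen N π D) {e : ℕ} (he : 0 < e) {q : A K}
    (hq : Hom e q) (i j : ZMod N) :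
    (D q i j).coeff 0 = π.e1 (rho N q i (i + (e : ZMod N))) := by
  have h1 : (D q i j).coeff 0 = ((t1 N π q * ones N L0) i j).coeff 0 := by
    let F : A K →ₗ[K] L0 :=
      { toFun := fun q => (D q i j).coeff 0
        map_add' := fun p q => by rw [map_add, Matrix.add_apply, Polynomial.coeff_add]
        map_smul' := fun c q => by
          rw [map_smul, Matrix.smul_apply, Polynomial.coeff_smul, RingHom.id_apply] }
    let G : A K →ₗ[K] L0 :=
      { toFun := fun q => ((t1 N π q * ones N L0) i j).coeff 0
        map_add' := fun p q => by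
          rw [map_add, add_mul, Matrix.add_apply, Polynomial.coeff_add]
        map_smul' := fun c q => by
          rw [map_smul, smul_mul_assoc, Matrix.smul_apply, Polynomial.coeff_smul,
            RingHom.id_apply] }
    have : F q = G q := by
      apply hom_ext_word F G _ hq
      intro w hw
      exact (gen_word N π hD w).2 (by omega) i j
    exact this
  rw [h1, t1_mul N π hq, Polynomial.coeff_C_mul]
  simp [ones]

end Pool.Agent.H17.TA
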