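import Pool.Agent.H17.TA.PFx

/-!
Divisibility of degrees: the twisted bimodule.
-/

namespace Pool.Agent.H17.TA

open Pool.Agent.H66.TA FreeAlgebra Polynomial
open scoped TensorProduct

variable {K : Type*} [Field K]

section twist

variable (m : ℕ) [NeZero m]

/-- The untwisted representation. -/
noncomputable def w1 : A K →ₐ[K] Matrix (ZMod m) (ZMod m) (A K) :=
  lift K (fun i => Matrix.diagonal (fun _ => x K i))

/-- The twisted representation. -/
noncomputable def w2 : A K →ₐ[K] Matrix (ZMod m) (ZMod m) (A K) :=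
  lift K (fun i => Matrix.of fun a b => if b = a + 1 then x K i else 0)

theorem w1_apply (a : A K) : w1 m a = Matrix.diagonal (fun _ => a) := by
  induction a using FreeAlgebra.induction with
  | grade0 c =>
    rw [AlgHom.commutes]
    ext1 i j
    rw [Matrix.algebraMap_matrix_apply, Matrix.diagonal_apply]
  | grade1 i => rw [w1, lift_ι_apply]
  | mul a b ha hb => rw [map_mul, ha, hb, Matrix.diagonal_mul_diagonal]
  | add a b ha hb => rw [map_add, ha, hb, Matrix.diagonal_add]

theorem w2_mon (w : FreeMonoid (Fin 3)) (i j : ZMod m) :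
    w2 (K := K) m (mon w) i j = if j = i + (w.length : ZMod m) then mon w else 0 := by
  induction w using FreeMonoid.inductionOn' generalizing i with
  | one =>
    rw [mon_one, map_one, Matrix.one_apply]
    simp [eq_comm]
  | of_mul k w ih =>
    rw [mon_mul, map_mul, Matrix.mul_apply, Finset.sum_eq_single (i + 1)]
    · rw [ih, mon_of, w2, x, lift_ι_apply, Matrix.of_apply, if_pos rfl, FreeMonoid.length_mul,
        FreeMonoid.length_of, Nat.cast_add, Nat.cast_one, ← add_assoc]
      split_ifs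
      · rfl
      · rw [mul_zero]
    · intro c _ hc
      rw [mon_of, w2, x, lift_ι_apply, Matrix.of_apply, if_neg hc, zero_mul]
    · intro h
      exact absurd (Finset.mem_univ _) h

theorem w2_hom {n : ℕ} {a : A K} (ha : Hom n a) (i j : ZMod m) :
    w2 m a i j = if j = i + (n : ZMod m) then a else 0 := by
  let F : A K →ₗ[K] A K :=
    { toFun := fun q => w2 m q i j
      map_add' := fun p q => by rw [map_add, Matrix.add_apply]
      map_smul' := fun c q => by rw [map_smul, Matrix.smul_apply, RingHom.id_apply] }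
  let G : A K →ₗ[K] A K :=
    { toFun := fun q => if j = i + (n : ZMod m) then q else 0
      map_add' := fun p q => by split_ifs <;> simp
      map_smul' := fun c q => by split_ifs <;> simp }
  have : F a = G a := by
    apply hom_ext_word F G _ ha
    intro w hw
    show w2 m (mon w) i j = if j = i + (n : ZMod m) then mon w else 0
    rw [w2_mon, hw]
  exact this

/-- The difference derivation. -/
noncomputable def tw : A K →ₗ[K] (Matrix (ZMod m) (ZMod m) (A K))[X] :=
  (LinearMap.mulRight K (1 : (Matrix (ZMod m) (ZMod m) (A K))[X])).comp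
    (pl (w1 m)).toLinearMap -
  (LinearMap.mulLeft K (1 : (Matrix (ZMod m) (ZMod m) (A K))[X])).comp (pl (w2 m)).toLinearMap

theorem tw_der : IsDer (pl (w1 (K := K) m)) (pl (w2 m)) (tw m) := isDer_inner _ _ _

theorem tw_coeff (a : A K) (k : ℕ) : (tw m a).coeff k = w1 m (hc k a) - w2 m (hc k a) := by
  show (pl (w1 m) a * 1 - 1 * pl (w2 m) a).coeff k = _
  rw [mul_one, one_mul, coeff_sub, pl_coeff, pl_coeff]

theorem tw_coeff_zero (a : A K) {k : ℕ} (hk : (k : ZMod m) = 0) : (tw m a).coeff k = 0 := by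
  rw [tw_coeff, sub_eq_zero, w1_apply]
  ext1 i j
  rw [w2_hom m (hom_hc k a), hk, add_zero, Matrix.diagonal_apply]
  simp [eq_comm]

theorem tw_coeff_ne (a : A K) (ha : a ≠ 0) (hk : ((dg a : ℕ) : ZMod m) ≠ 0) :
    (tw m a).coeff (dg a) ≠ 0 := by
  intro h
  rw [tw_coeff, sub_eq_zero, w1_apply] at h
  have h1 := congrFun (congrFun h 0) 0
  rw [Matrix.diagonal_apply_eq, w2_hom m (hom_hc _ a), if_neg] at h1
  · exact lf_ne_zero ha h1
  · intro e
    rw [zero_add] at e
    exact hk e.symm

theorem tw_deg (a : A K) : (tw m a).natDegree ≤ dg a := by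
  rw [natDegree_le_iff_coeff_eq_zero]
  intro k hk
  rw [tw_coeff, hc_eq_zero_of_lt hk, map_zero, map_zero, sub_zero]

end twist

/-- Degree bound for the second Fox derivative. -/
theorem second_bound (g : Gp K) {P : A K} (hP : P ∈ (B : Subalgebra K (A K)))
    {r r' : ℕ} {u v : Fin r → A K} {u' v' : Fin r' → A K} (hr : Rep g 1 P u v)
    (hr' : Rep g 2 P u' v')
    (hlt : ∀ k, dg (g (u k)) + dg (g (v k)) + dg (g (x K 1)) < dg (g P)) (l : Fin r') :
    dg (g (u' l)) + dg (g (v' l)) + dg (g (x K 2)) ≤ dg (g P) := by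
  set a := g (x K 1) with ha
  set b := g (x K 2) with hb
  have hb0 : dg b ≠ 0 := dg_gx g 2
  let n0 : ℕ := ∑ l, (dg (g (u' l)) + dg (g (v' l)))
  let N : ℕ := n0 + dg b + 1
  have : NeZero N := ⟨Nat.succ_ne_zero _⟩
  obtain ⟨π⟩ := exists_wpair K N
  have hG := good K N π
  have hbN : dg b ≤ N := by show dg b ≤ n0 + dg b + 1; omega
  have hD := isDer_inner (pl (t1 N π)) (pl (t2 N π)) 1
  set D := (LinearMap.mulRight K (1 : (EE N _)[X])).comp (pl (t1 N π)).toLinearMap -
    (LinearMap.mulLeft K (1 : (EE N _)[X])).comp (pl (t2 N π)).toLinearMap with hDdef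
  have hDa : ∀ R, D R = pl (t1 N π) R * 1 - 1 * pl (t2 N π) R := fun R => rfl
  have hDdeg : ∀ R, (D R).natDegree ≤ dg R := by
    intro R
    rw [hDa, mul_one, one_mul]
    exact (natDegree_sub_le _ _).trans (max_le (pl_deg _ _) (pl_deg _ _))
  have hDb : D b ≠ 0 ∧ dg b ≤ (D b).natDegree := by
    have h1 : pl (t1 N π) b * 1 = 1 * pl (t2 N π) b + D b := by
      rw [hDa]; abel
    have hone : (1 : (EE N (MvPolynomial (Fin 3 × ZMod N) (W K N)))[X]) ≠ 0 := one_ne_zero
    constructor
    · intro h0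
      rw [h0, add_zero] at h1
      exact hone (phi_inj hG hb0 hbN h1)
    · have := phi_deg hG hb0 hbN hone h1
      omega
  have hform : D (g P) = ∑ k, pl (t1 N π) (g (u k)) * D a * pl (t2 N π) (g (v k)) +
      ∑ l, pl (t1 N π) (g (u' l)) * D b * pl (t2 N π) (g (v' l)) := by
    have h1 := der_eq_B _ _ (hD.comp_aut g) hP
    rw [hr.eq, hr'.eq, map_sum, map_sum] at h1
    exact h1
  have hsum : (∑ l, pl (t1 N π) (g (u' l)) * D b * pl (t2 N π) (g (v' l))).natDegree ≤
      dg (g P) := by
    have e : ∑ l, pl (t1 N π) (g (u' l)) * D b * pl (t2 N π) (g (v' l)) = D (g P) -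
        ∑ k, pl (t1 N π) (g (u k)) * D a * pl (t2 N π) (g (v k)) := by
      rw [hform]; abel
    rw [e]
    refine (natDegree_sub_le _ _).trans (max_le (hDdeg _) ?_)
    apply natDegree_sum_le_of_forall_le
    intro k _
    have h2 : (pl (t1 N π) (g (u k)) * D a * pl (t2 N π) (g (v k))).natDegree ≤
        dg (g (u k)) + dg a + dg (g (v k)) :=
      natDegree_mul_le.trans (Nat.add_le_add (natDegree_mul_le.trans
        (Nat.add_le_add (pl_deg _ _) (hDdeg a))) (pl_deg _ _))
    have := hlt k
    omega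
  have hlead := lead_tensor hG (u := fun l => g (u' l)) (v := fun l => g (v' l))
    (fun l => (map_ne_zero_iff g g.injective).mpr (hr'.ne l)) hr'.li (fun l => by
      have h1 : dg (g (u' l)) + dg (g (v' l)) ≤ n0 :=
        Finset.single_le_sum (f := fun l => dg (g (u' l)) + dg (g (v' l)))
          (fun _ _ => Nat.zero_le _) (Finset.mem_univ l)
      show _ ≤ n0 + _ + 1
      omega) hDb.1 l
  have := hlead.1
  have := hDb.2
  omega

/-- **Divisibility.** -/
theorem f1star' (g : Gp K) {P : A K} (hP : P ∈ (B : Subalgebra K (A K)))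
    {r r' : ℕ} {u v : Fin r → A K} {u' v' : Fin r' → A K} (hr : Rep g 1 P u v)
    (hr' : Rep g 2 P u' v')
    (hlt : ∀ k, dg (g (u k)) + dg (g (v k)) + dg (g (x K 1)) < dg (g P)) :
    dg (g (x K 2)) ∣ dg (g P) := by
  set a := g (x K 1) with ha
  set b := g (x K 2) with hb
  have hb0 : dg b ≠ 0 := dg_gx g 2
  set m := dg b with hm
  have : NeZero m := ⟨hb0⟩
  by_contra hnd
  have hQn : dg (g P) ≠ 0 := fun h => hnd (by rw [h]; exact dvd_zero _)
  have hQ0 : g P ≠ 0 := fun h => hQn (by rw [h, dg_zero])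
  have hne : ((dg (g P) : ℕ) : ZMod m) ≠ 0 := by
    intro h
    exact hnd ((ZMod.natCast_eq_zero_iff _ _).mp h)
  apply tw_coeff_ne m (g P) hQ0 hne
  have hform : tw m (g P) = ∑ k, pl (w1 m) (g (u k)) * tw m a * pl (w2 m) (g (v k)) +
      ∑ l, pl (w1 m) (g (u' l)) * tw m b * pl (w2 m) (g (v' l)) := by
    have h1 := der_eq_B _ _ ((tw_der (K := K) m).comp_aut g) hP
    rw [hr.eq, hr'.eq, map_sum, map_sum] at h1
    exact h1
  have htb : (tw m b).natDegree ≤ m - 1 := by
    rw [natDegree_le_iff_coeff_eq_zero]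
    intro k hk
    rcases Nat.lt_or_ge m k with h | h
    · exact coeff_eq_zero_of_natDegree_lt (lt_of_le_of_lt (tw_deg m b) h)
    · have : k = m := by omega
      rw [this]
      exact tw_coeff_zero m b (by simp)
  rw [hform, coeff_add, finsetSum_coeff, finsetSum_coeff]
  rw [Finset.sum_eq_zero, Finset.sum_eq_zero, add_zero]
  · intro l _
    apply coeff_eq_zero_of_natDegree_lt
    have h1 := second_bound g hP hr hr' hlt l
    rw [← hb, ← hm] at h1
    have h2 : (pl (w1 m) (g (u' l)) * tw m b * pl (w2 m) (g (v' l))).natDegree ≤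
        dg (g (u' l)) + (m - 1) + dg (g (v' l)) :=
      natDegree_mul_le.trans (Nat.add_le_add (natDegree_mul_le.trans
        (Nat.add_le_add (pl_deg _ _) htb)) (pl_deg _ _))
    have h3 : 0 < m := Nat.pos_of_ne_zero hb0
    omega
  · intro k _
    apply coeff_eq_zero_of_natDegree_lt
    have h2 : (pl (w1 m) (g (u k)) * tw m a * pl (w2 m) (g (v k))).natDegree ≤
        dg (g (u k)) + dg a + dg (g (v k)) :=
      natDegree_mul_le.trans (Nat.add_le_add (natDegree_mul_le.trans
        (Nat.add_le_add (pl_deg _ _) (tw_deg m a))) (pl_deg _ _))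
    have := hlt k
    omega

end Pool.Agent.H17.TA
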