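import Pool.Agent.H17.TA.RepEx
import Pool.Agent.H17.TA.Twist

/-!
Divisibility, final form.
-/

namespace Pool.Agent.H17.TA

open Pool.Agent.H66.TA FreeAlgebra Polynomial
open scoped TensorProduct

variable {K : Type*} [Field K]

theorem f1star (g : Gp K) {P : A K} (hP : P ∈ (B : Subalgebra K (A K)))
    {r : ℕ} {u v : Fin r → A K} (hr : Rep g 1 P u v)
    (hlt : ∀ k, dg (g (u k)) + dg (g (v k)) + dg (g (x K 1)) < dg (g P)) :
    dg (g (x K 2)) ∣ dg (g P) := by
  obtain ⟨r', u', v', hr'⟩ := exists_rep g 2 hP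
  exact f1star' g hP hr hr' hlt

/-- `(F1)` -/
theorem pg_f1 [CharZero K] (g : Gp K) {P : A K} (hP : P ∈ (B : Subalgebra K (A K)))
    (hab : br (g (x K 1)) (g (x K 2)) ≠ 0) (hnd : ¬ dg (g (x K 2)) ∣ dg (g P)) :
    dg (g P) + dg (br (g (x K 1)) (g (x K 2))) ≤ dg (g (x K 1)) + dg (br (g P) (g (x K 2))) := by
  obtain ⟨r, u, v, hr⟩ := exists_rep g 1 hP
  by_contra hlt
  rw [not_le] at hlt
  apply hnd
  apply f1star g hP hr
  intro k
  have := nd g hP hab hr k
  omega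

end Pool.Agent.H17.TA
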