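import Pool.Agent.H17.TA.Der
import Pool.Agent.H66.TA.Pair

/-!
Fox derivatives `A → A ⊗ A`.
-/

namespace Pool.Agent.H17.TA

open Pool.Agent.H66.TA FreeAlgebra
open scoped TensorProduct

variable {K : Type*} [Field K]

/-- `a ↦ a ⊗ 1` -/
noncomputable abbrev il : A K →ₐ[K] A K ⊗[K] A K := Algebra.TensorProduct.includeLeft

/-- `a ↦ 1 ⊗ a` -/
noncomputable abbrev ir : A K →ₐ[K] A K ⊗[K] A K := Algebra.TensorProduct.includeRight

/-- The Fox derivative with respect to `x k`. -/
noncomputable def dd (k : Fin 3) : A K →ₗ[K] A K ⊗[K] A K :=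
  (exists_der (il (K := K)) ir (fun i => if i = k then 1 else 0)).choose

theorem dd_der (k : Fin 3) : IsDer (il (K := K)) ir (dd k) :=
  (exists_der (il (K := K)) ir (fun i => if i = k then 1 else 0)).choose_spec.1

theorem dd_x (k i : Fin 3) : dd k (x K i) = if i = k then 1 else 0 :=
  (exists_der (il (K := K)) ir (fun i => if i = k then 1 else 0)).choose_spec.2 i

theorem dd_mul (k : Fin 3) (P Q : A K) :
    dd k (P * Q) = (P ⊗ₜ[K] (1 : A K)) * dd k Q + dd k P * ((1 : A K) ⊗ₜ[K] Q) := dd_der k P Q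

theorem dd_one (k : Fin 3) : dd k (1 : A K) = 0 := (dd_der k).map_one

theorem dd_algebraMap (k : Fin 3) (c : K) : dd k (algebraMap K (A K) c) = 0 :=
  (dd_der k).map_algebraMap c

theorem dd0_B {P : A K} (hP : P ∈ (B : Subalgebra K (A K))) : dd 0 P = 0 := by
  induction hP using Algebra.adjoin_induction with
  | mem y hy =>
    rcases hy with rfl | rfl
    · rw [dd_x, if_neg (by decide)]
    · rw [dd_x, if_neg (by decide)]
  | algebraMap r => exact dd_algebraMap 0 r
  | add y z _ _ hy hz => rw [map_add, hy, hz, add_zero]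
  | mul y z _ _ hy hz => rw [dd_mul, hy, hz, mul_zero, zero_mul, add_zero]

section

variable {Λ : Type*} [Ring Λ] [Algebra K Λ] (r1 r2 : A K →ₐ[K] Λ)

/-- The bimodule action on an element `y`. -/
noncomputable def act (y : Λ) : A K ⊗[K] A K →ₗ[K] Λ :=
  TensorProduct.lift
    (((LinearMap.mul K Λ).comp ((LinearMap.mulRight K y).comp r1.toLinearMap)).compl₂
      r2.toLinearMap)

theorem act_tmul (y : Λ) (u v : A K) : act r1 r2 y (u ⊗ₜ v) = r1 u * y * r2 v := rfl

theorem act_one (y : Λ) : act r1 r2 y 1 = y := by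
  rw [Algebra.TensorProduct.one_def, act_tmul, map_one, map_one, one_mul, mul_one]

theorem act_left (y : Λ) (P : A K) (M : A K ⊗[K] A K) :
    act r1 r2 y ((P ⊗ₜ[K] (1 : A K)) * M) = r1 P * act r1 r2 y M := by
  induction M using TensorProduct.induction_on with
  | zero => rw [mul_zero, map_zero, mul_zero]
  | tmul u v =>
    rw [Algebra.TensorProduct.tmul_mul_tmul, act_tmul, act_tmul, map_mul, one_mul]
    simp only [mul_assoc]
  | add a b ha hb => rw [mul_add, map_add, map_add, ha, hb, mul_add]

theorem act_right (y : Λ) (Q : A K) (M : A K ⊗[K] A K) :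
    act r1 r2 y (M * ((1 : A K) ⊗ₜ[K] Q)) = act r1 r2 y M * r2 Q := by
  induction M using TensorProduct.induction_on with
  | zero => rw [zero_mul, map_zero, zero_mul]
  | tmul u v =>
    rw [Algebra.TensorProduct.tmul_mul_tmul, mul_one, act_tmul, act_tmul, map_mul]
    simp only [mul_assoc]
  | add a b ha hb => rw [add_mul, map_add, map_add, ha, hb, add_mul]

/-- Every derivation is a combination of the Fox derivatives. -/
theorem der_eq {D : A K →ₗ[K] Λ} (hD : IsDer r1 r2 D) (P : A K) :
    D P = act r1 r2 (D (x K 0)) (dd 0 P) + act r1 r2 (D (x K 1)) (dd 1 P) +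
      act r1 r2 (D (x K 2)) (dd 2 P) := by
  let D' : A K →ₗ[K] Λ := (act r1 r2 (D (x K 0))).comp (dd 0) +
    (act r1 r2 (D (x K 1))).comp (dd 1) + (act r1 r2 (D (x K 2))).comp (dd 2)
  have hD' : IsDer r1 r2 D' := by
    intro P Q
    show act r1 r2 (D (x K 0)) (dd 0 (P * Q)) + act r1 r2 (D (x K 1)) (dd 1 (P * Q)) +
      act r1 r2 (D (x K 2)) (dd 2 (P * Q)) =
      r1 P * (act r1 r2 (D (x K 0)) (dd 0 Q) + act r1 r2 (D (x K 1)) (dd 1 Q) +
        act r1 r2 (D (x K 2)) (dd 2 Q)) +
      (act r1 r2 (D (x K 0)) (dd 0 P) + act r1 r2 (D (x K 1)) (dd 1 P) +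
        act r1 r2 (D (x K 2)) (dd 2 P)) * r2 Q
    simp only [dd_mul, map_add, act_left, act_right, mul_add, add_mul]
    abel
  have : D = D' := by
    apply hD.ext hD'
    intro i
    show D (x K i) = act r1 r2 (D (x K 0)) (dd 0 (x K i)) + act r1 r2 (D (x K 1)) (dd 1 (x K i)) +
      act r1 r2 (D (x K 2)) (dd 2 (x K i))
    rw [dd_x, dd_x, dd_x]
    fin_cases i <;> simp [act_one]
  exact LinearMap.congr_fun this P

theorem der_eq_B {D : A K →ₗ[K] Λ} (hD : IsDer r1 r2 D) {P : A K}
    (hP : P ∈ (B : Subalgebra K (A K))) :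
    D P = act r1 r2 (D (x K 1)) (dd 1 P) + act r1 r2 (D (x K 2)) (dd 2 P) := by
  rw [der_eq r1 r2 hD, dd0_B hP, map_zero, zero_add]

end

/-- The coefficient functional of `u ⊗ v`. -/
noncomputable def co2 (u v : FreeMonoid (Fin 3)) : A K ⊗[K] A K →ₗ[K] K :=
  (LinearMap.mul' K K).comp (TensorProduct.map (co u) (co v))

theorem co2_tmul (u v : FreeMonoid (Fin 3)) (a b : A K) :
    co2 u v (a ⊗ₜ[K] b) = co u a * co v b := rfl

theorem co_one_x_mul (i : Fin 3) (a : A K) : co 1 (x K i * a) = 0 := by
  let F : A K →ₗ[K] K := (co 1).comp (LinearMap.mulLeft K (x K i))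
  have : F = 0 := by
    apply lin_ext
    intro w
    show co (K := K) 1 (x K i * mon w) = 0
    rw [← mon_of, ← mon_mul, co_mon, if_neg]
    intro h
    have := congrArg FreeMonoid.length h
    rw [FreeMonoid.length_mul, FreeMonoid.length_of, FreeMonoid.length_one] at this
    omega
  exact LinearMap.congr_fun this a

theorem co_of_x_mul (i j : Fin 3) (u : FreeMonoid (Fin 3)) (a : A K) :
    co (FreeMonoid.of j * u) (x K i * a) = if i = j then co u a else 0 := by
  have hx : Hom 1 (x K i) := by rw [Hom, tp_x, pow_one]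
  rw [co_mul_hom hx (FreeMonoid.length_of j), ← mon_of, co_mon]
  by_cases h : i = j
  · rw [if_pos h, if_pos (by rw [h]), one_mul]
  · rw [if_neg h, if_neg (fun e => h (FreeMonoid.of_injective e)), zero_mul]

theorem co2_left_one (i : Fin 3) (v : FreeMonoid (Fin 3)) (M : A K ⊗[K] A K) :
    co2 1 v ((x K i ⊗ₜ[K] (1 : A K)) * M) = 0 := by
  induction M using TensorProduct.induction_on with
  | zero => rw [mul_zero, map_zero]
  | tmul a b =>
    rw [Algebra.TensorProduct.tmul_mul_tmul, co2_tmul, co_one_x_mul, zero_mul]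
  | add a b ha hb => rw [mul_add, map_add, ha, hb, add_zero]

theorem co2_left_of (i j : Fin 3) (u v : FreeMonoid (Fin 3)) (M : A K ⊗[K] A K) :
    co2 (FreeMonoid.of j * u) v ((x K i ⊗ₜ[K] (1 : A K)) * M) = if i = j then co2 u v M else 0 := by
  induction M using TensorProduct.induction_on with
  | zero => rw [mul_zero, map_zero, map_zero, ite_self]
  | tmul a b =>
    rw [Algebra.TensorProduct.tmul_mul_tmul, co2_tmul, co_of_x_mul, co2_tmul, one_mul]
    split_ifs
    · rfl
    · rw [zero_mul]
  | add a b ha hb =>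
    rw [mul_add, map_add, ha, hb, map_add]
    split_ifs
    · rfl
    · rw [add_zero]

theorem co2_dd (k : Fin 3) (u v w : FreeMonoid (Fin 3)) :
    co2 (K := K) u v (dd k (mon w)) = co (u * FreeMonoid.of k * v) (mon w) := by
  induction w using FreeMonoid.inductionOn' generalizing u with
  | one =>
    rw [mon_one, dd_one, map_zero, ← mon_one, co_mon, if_neg]
    intro h
    have := congrArg FreeMonoid.length h
    rw [FreeMonoid.length_mul, FreeMonoid.length_mul, FreeMonoid.length_of,
      FreeMonoid.length_one] at this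
    omega
  | of_mul i w ih =>
    rw [mon_mul, mon_of, dd_mul, map_add, dd_x]
    have h2 : co2 u v ((if i = k then (1 : A K ⊗[K] A K) else 0) * ((1 : A K) ⊗ₜ[K] mon w)) =
        if i = k then co u 1 * co v (mon w) else 0 := by
      split_ifs
      · rw [one_mul, co2_tmul]
      · rw [zero_mul, map_zero]
    rw [h2]
    induction u using FreeMonoid.casesOn with
    | one =>
      rw [co2_left_one, zero_add, one_mul, co_of_x_mul, ← mon_one, co_mon, if_pos rfl, one_mul]
    | of_mul j u =>
      have h3 : co (K := K) (FreeMonoid.of j * u) 1 = 0 := by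
        rw [← mon_one, co_mon, if_neg]
        intro h
        have := congrArg FreeMonoid.length h
        rw [FreeMonoid.length_mul, FreeMonoid.length_of, FreeMonoid.length_one] at this
        omega
      rw [co2_left_of, mul_assoc, mul_assoc, co_of_x_mul, ← mul_assoc, ih, h3, zero_mul, ite_self,
        add_zero]

/-- Coefficients of the Fox derivatives. -/
theorem co2_dd' (k : Fin 3) (u v : FreeMonoid (Fin 3)) (P : A K) :
    co2 u v (dd k P) = co (u * FreeMonoid.of k * v) P := by
  have : (co2 (K := K) u v).comp (dd k) = co (u * FreeMonoid.of k * v) := by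
    apply lin_ext
    intro w
    exact co2_dd k u v w
  exact LinearMap.congr_fun this P

/-- A good representation of the Fox derivative. -/
structure Rep (g : Gp K) (k : Fin 3) (P : A K) {r : ℕ} (u v : Fin r → A K) : Prop where
  eq : dd k P = ∑ i, u i ⊗ₜ[K] v i
  mu : ∀ i, u i ∈ (B : Subalgebra K (A K))
  mv : ∀ i, v i ∈ (B : Subalgebra K (A K))
  ne : ∀ i, u i ≠ 0
  li : LinearIndependent K (fun i => lf (g (v i)))

end Pool.Agent.H17.TA
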