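import Pool.Agent.H17.TA.PA0

/-!
The generic pair of representations: the matrix algebra over `L0[s]` as a bimodule.
-/

namespace Pool.Agent.H17.TA

open Pool.Agent.H66.TA FreeAlgebra

variable {K : Type*} [Field K] (N : ℕ) [NeZero N]

/-- Two independent systems of weights in a domain `L0`. -/
structure WPair (K : Type*) [Field K] (N : ℕ) (L0 : Type*) [CommRing L0] [Algebra K L0] where
  /-- the first system -/
  e1 : W K N →ₐ[K] L0
  /-- the second system -/
  e2 : W K N →ₐ[K] L0
  /-- independence -/
  lam : ∀ c c', ∃ l : L0 →ₗ[K] K, ∀ p q : W K N, l (e1 p * e2 q) =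
    MvPolynomial.coeff c p * MvPolynomial.coeff c' q

variable {L0 : Type*} [CommRing L0] [Algebra K L0] (π : WPair K N L0)

/-- The matrix algebra. -/
abbrev EE (N : ℕ) (L0 : Type*) [CommRing L0] : Type _ :=
  Matrix (ZMod N) (ZMod N) (Polynomial L0)

/-- The left representation. -/
noncomputable def t1 : A K →ₐ[K] EE N L0 :=
  (AlgHom.mapMatrix ((Polynomial.CAlgHom (R := K) (A := L0)).comp π.e1)).comp (rho N)

/-- The right representation. -/
noncomputable def t2 : A K →ₐ[K] EE N L0 :=
  lift K (fun i => (Polynomial.X : Polynomial L0) •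
    (AlgHom.mapMatrix ((Polynomial.CAlgHom (R := K) (A := L0)).comp π.e2)) (mx K N i))

theorem t1_apply (a : A K) (i j : ZMod N) : t1 N π a i j = Polynomial.C (π.e1 (rho N a i j)) := rfl

theorem t2_x (k : Fin 3) (i j : ZMod N) :
    t2 (K := K) N π (x K k) i j = Polynomial.X * Polynomial.C (π.e2 (mx K N k i j)) := by
  rw [t2, x, lift_ι_apply]
  rfl

theorem t2_mon (w : FreeMonoid (Fin 3)) (i j : ZMod N) :
    t2 (K := K) N π (mon w) i j =
      Polynomial.X ^ w.length * Polynomial.C (π.e2 (rho N (mon w) i j)) := by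
  induction w using FreeMonoid.inductionOn' generalizing i with
  | one =>
    rw [mon_one, map_one, map_one, Matrix.one_apply, Matrix.one_apply]
    split_ifs <;> simp
  | of_mul k w ih =>
    rw [mon_mul, map_mul, map_mul, Matrix.mul_apply, Matrix.mul_apply, map_sum, map_sum,
      Finset.mul_sum]
    apply Finset.sum_congr rfl
    intro l _
    rw [mon_of, t2_x, ih, FreeMonoid.length_mul, FreeMonoid.length_of, map_mul, map_mul, pow_add,
      pow_one, rho_x]
    ring

theorem t2_hom {n : ℕ} {a : A K} (ha : Hom n a) (i j : ZMod N) :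
    t2 N π a i j = Polynomial.X ^ n * Polynomial.C (π.e2 (rho N a i j)) := by
  let F : A K →ₗ[K] Polynomial L0 :=
    { toFun := fun q => t2 N π q i j
      map_add' := fun p q => by rw [map_add, Matrix.add_apply]
      map_smul' := fun c q => by rw [map_smul, Matrix.smul_apply, RingHom.id_apply] }
  let G : A K →ₗ[K] Polynomial L0 :=
    { toFun := fun q => Polynomial.X ^ n * Polynomial.C (π.e2 (rho N q i j))
      map_add' := fun p q => by
        rw [map_add, Matrix.add_apply, map_add, map_add, mul_add]
      map_smul' := fun c q => by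
        rw [map_smul, Matrix.smul_apply, map_smul, RingHom.id_apply, ← Polynomial.smul_C,
          mul_smul_comm] }
  have : F a = G a := by
    apply hom_ext_word F G _ ha
    intro w hw
    show t2 N π (mon w) i j = Polynomial.X ^ n * Polynomial.C (π.e2 (rho N (mon w) i j))
    rw [t2_mon, hw]
  exact this

/-- The left action on entries. -/
theorem t1_mul {m : ℕ} {u : A K} (hu : Hom m u) (X : EE N L0) (i j : ZMod N) :
    (t1 N π u * X) i j =
      Polynomial.C (π.e1 (rho N u i (i + (m : ZMod N)))) * X (i + (m : ZMod N)) j := by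
  rw [Matrix.mul_apply, Finset.sum_eq_single (i + (m : ZMod N))]
  · rw [t1_apply]
  · intro c _ hc
    rw [t1_apply, rho_eq_zero N hu hc, map_zero, map_zero, zero_mul]
  · intro h
    exact absurd (Finset.mem_univ _) h

/-- The right action on entries. -/
theorem mul_t2 {m : ℕ} {v : A K} (hv : Hom m v) (X : EE N L0) (i j : ZMod N) :
    (X * t2 N π v) i (j + (m : ZMod N)) =
      X i j * (Polynomial.X ^ m * Polynomial.C (π.e2 (rho N v j (j + (m : ZMod N))))) := by
  rw [Matrix.mul_apply, Finset.sum_eq_single j]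
  · rw [t2_hom N π hv]
  · intro c _ hc
    rw [t2_hom N π hv, rho_eq_zero N hv, map_zero, map_zero, mul_zero, mul_zero]
    intro e
    exact hc (add_right_cancel e).symm
  · intro h
    exact absurd (Finset.mem_univ _) h

/-- Double coefficients. -/
theorem coeff_coeff (i j : ZMod N) (u v : FreeMonoid (Fin 3)) (hu : u.length ≤ N)
    (hv : v.length ≤ N) : ∃ l : L0 →ₗ[K] K, ∀ p q : A K,
      l (π.e1 (rho N p i (i + (u.length : ZMod N))) *
        π.e2 (rho N q j (j + (v.length : ZMod N)))) = co u p * co v q := by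
  obtain ⟨l, hl⟩ := π.lam (ex N i u.toList) (ex N j v.toList)
  refine ⟨l, fun p q => ?_⟩
  rw [hl, coeff_rho N j v hv, coeff_rho N i u hu]

/-- Independent systems of weights exist. -/
theorem exists_wpair (K : Type*) [Field K] (N : ℕ) [NeZero N] :
    Nonempty (WPair K N (MvPolynomial (Fin 3 × ZMod N) (W K N))) := by
  refine ⟨⟨IsScalarTower.toAlgHom K (W K N) (MvPolynomial (Fin 3 × ZMod N) (W K N)),
    MvPolynomial.mapAlgHom (Algebra.ofId K (W K N)), fun c c' => ?_⟩⟩
  refine ⟨(MvPolynomial.lcoeff K c).comp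
    ((MvPolynomial.lcoeff (W K N) c').restrictScalars K), fun p q => ?_⟩
  show MvPolynomial.coeff c (MvPolynomial.coeff c' (MvPolynomial.C p *
    MvPolynomial.map (algebraMap K (W K N)) q)) = _
  rw [MvPolynomial.coeff_C_mul, MvPolynomial.coeff_map, MvPolynomial.algebraMap_eq, mul_comm,
    MvPolynomial.coeff_C_mul, mul_comm]

end Pool.Agent.H17.TA
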