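import Pool.Agent.H17.TA.Gen

/-!
Nonzero homogeneous tensors act injectively on the generic bimodule.
-/

namespace Pool.Agent.H17.TA

open Pool.Agent.H66.TA FreeAlgebra

variable {K : Type*} [Field K] (N : ℕ) [NeZero N] {L0 : Type*} [CommRing L0] [Algebra K L0]
  (π : WPair K N L0)

theorem exists_co_ne {n : ℕ} {q : A K} (hq : Hom n q) (h0 : q ≠ 0) :
    ∃ w : FreeMonoid (Fin 3), w.length = n ∧ co w q ≠ 0 := by
  obtain ⟨w, hw⟩ : ∃ w, co w q ≠ 0 := by
    by_contra h
    push Not at h
    exact h0 (eq_of_co (fun w => by rw [h w, map_zero]))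
  refine ⟨w, ?_, hw⟩
  by_contra hne
  exact hw (co_hom_eq_zero hq hne)

theorem sum_ne_zero {ι : Type*} {a' b' : ℕ} (ha : a' ≤ N) (hb : b' ≤ N) (S : Finset ι)
    (hS : S.Nonempty) (u v : ι → A K) (hu : ∀ k ∈ S, Hom a' (u k)) (hv : ∀ k ∈ S, Hom b' (v k))
    (hu0 : ∀ k ∈ S, u k ≠ 0) (hli : LinearIndepOn K v (S : Set ι)) (i j : ZMod N) :
    ∑ k ∈ S, π.e1 (rho N (u k) i (i + (a' : ZMod N))) * π.e2 (rho N (v k) j (j + (b' : ZMod N))) ≠
      0 := by
  intro h
  obtain ⟨k0, hk0⟩ := hS
  obtain ⟨U, hUl, hU⟩ := exists_co_ne (hu k0 hk0) (hu0 k0 hk0)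
  have key : ∑ k ∈ S, co U (u k) • v k = 0 := by
    apply eq_of_co
    intro V
    rw [map_sum, map_zero]
    simp only [map_smul, smul_eq_mul]
    by_cases hV : V.length = b'
    · obtain ⟨l, hl⟩ := coeff_coeff N π i j U V (by omega) (by omega)
      have h1 := congrArg l h
      rw [map_sum, map_zero] at h1
      rw [← h1]
      apply Finset.sum_congr rfl
      intro k _
      have := hl (u k) (v k)
      rw [hUl, hV] at this
      exact this.symm
    · apply Finset.sum_eq_zero
      intro k hk
      rw [co_hom_eq_zero (hv k hk) hV, mul_zero]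
  rw [linearIndepOn_finset_iff] at hli
  exact hU (hli _ key k0 hk0)

omit [Algebra K L0] in
theorem coeff_entry (a b : L0) (p : Polynomial L0) (m e : ℕ) :
    (Polynomial.C a * p * (Polynomial.X ^ m * Polynomial.C b)).coeff e =
      if m ≤ e then a * b * p.coeff (e - m) else 0 := by
  have : Polynomial.C a * p * (Polynomial.X ^ m * Polynomial.C b) =
      Polynomial.C (a * b) * p * Polynomial.X ^ m := by
    rw [Polynomial.C_mul]; ring
  rw [this, Polynomial.coeff_mul_X_pow']
  split_ifs
  · rw [Polynomial.coeff_C_mul]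
  · rfl

theorem entry_formula {m n : ℕ} {u v : A K} (hu : Hom n u) (hv : Hom m v) (X : EE N L0)
    (i j : ZMod N) : (t1 N π u * X * t2 N π v) i (j + (m : ZMod N)) =
      Polynomial.C (π.e1 (rho N u i (i + (n : ZMod N)))) * X (i + (n : ZMod N)) j *
        (Polynomial.X ^ m * Polynomial.C (π.e2 (rho N v j (j + (m : ZMod N))))) := by
  rw [mul_t2 N π hv, t1_mul N π hu]

/-- Nonzero homogeneous tensors act injectively. -/
theorem inj_tensor [IsDomain L0] {ι : Type*} {n : ℕ} (hn : n ≤ N) (S : Finset ι) (hS : S.Nonempty)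
    (u v : ι → A K) (m : ι → ℕ) (hm : ∀ k ∈ S, m k ≤ n) (hu : ∀ k ∈ S, Hom (n - m k) (u k))
    (hv : ∀ k ∈ S, Hom (m k) (v k)) (hu0 : ∀ k ∈ S, u k ≠ 0)
    (hli : LinearIndepOn K v (S : Set ι)) (X : EE N L0)
    (hX : ∑ k ∈ S, t1 N π (u k) * X * t2 N π (v k) = 0) : X = 0 := by
  by_contra hne
  have hex : ∃ e, ∃ i j, (X i j).coeff e ≠ 0 := by
    by_contra h
    push Not at h
    apply hne
    ext i j e
    rw [h e i j]
    simp
  classical
  set e := Nat.find hex with he
  have hemin : ∀ e' < e, ∀ i j, (X i j).coeff e' = 0 := by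
    intro e' he' i j
    by_contra h
    exact Nat.find_min hex he' ⟨i, j, h⟩
  obtain ⟨i, j, hij⟩ := Nat.find_spec hex
  rw [← he] at hij
  -- the smallest right degree
  obtain ⟨k1, hk1, hmin⟩ := S.exists_min_image m hS
  set b0 := m k1 with hb0
  set S0 := S.filter (fun k => m k = b0) with hS0
  have hS0ne : S0.Nonempty := ⟨k1, by rw [hS0, Finset.mem_filter]; exact ⟨hk1, rfl⟩⟩
  have hb0n : b0 ≤ n := hm k1 hk1
  set i' := i - ((n - b0 : ℕ) : ZMod N) with hi'
  have hi'' : i' + ((n - b0 : ℕ) : ZMod N) = i := by rw [hi']; ring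
  have h1 : (∑ k ∈ S, (t1 N π (u k) * X * t2 N π (v k)) i' (j + (b0 : ZMod N))).coeff (e + b0) = 0 := by
    have := congrFun (congrFun hX i') (j + (b0 : ZMod N))
    rw [Matrix.sum_apply, Matrix.zero_apply] at this
    rw [this, Polynomial.coeff_zero]
  rw [Polynomial.finsetSum_coeff] at h1
  have h2 : ∀ k ∈ S, ((t1 N π (u k) * X * t2 N π (v k)) i' (j + (b0 : ZMod N))).coeff (e + b0) =
      if m k = b0 then (π.e1 (rho N (u k) i' (i' + ((n - b0 : ℕ) : ZMod N))) *
        π.e2 (rho N (v k) j (j + (b0 : ZMod N)))) * (X i j).coeff e else 0 := by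
    intro k hk
    by_cases hk' : m k = b0
    · rw [if_pos hk']
      have h3 := entry_formula N π (hu k hk) (hv k hk) X i' j
      rw [hk'] at h3
      rw [h3, coeff_entry, if_pos (by omega), Nat.add_sub_cancel, hi'']
    · rw [if_neg hk']
      have hlt : b0 < m k := lt_of_le_of_ne (hmin k hk) (fun e => hk' e.symm)
      have h3 := entry_formula N π (hu k hk) (hv k hk) X i' (j + (b0 : ZMod N) - (m k : ZMod N))
      have h4 : j + (b0 : ZMod N) - (m k : ZMod N) + (m k : ZMod N) = j + (b0 : ZMod N) := by ring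
      rw [h4] at h3
      rw [h3, coeff_entry]
      split_ifs with h5
      · rw [hemin _ (by omega), mul_zero]
      · rfl
  rw [Finset.sum_congr rfl h2, ← Finset.sum_filter, ← hS0, ← Finset.sum_mul] at h1
  rcases mul_eq_zero.mp h1 with h3 | h3
  · refine sum_ne_zero N π (a' := n - b0) (b' := b0) (by omega) (by omega) S0 hS0ne u v ?_ ?_ ?_ ?_
      i' j h3
    · intro k hk
      rw [hS0, Finset.mem_filter] at hk
      have := hu k hk.1
      rwa [hk.2] at this
    · intro k hk
      rw [hS0, Finset.mem_filter] at hk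
      have := hv k hk.1
      rwa [hk.2] at this
    · intro k hk
      rw [hS0, Finset.mem_filter] at hk
      exact hu0 k hk.1
    · apply hli.mono
      intro k hk
      rw [Finset.mem_coe, hS0, Finset.mem_filter] at hk
      exact hk.1
  · exact hij h3

/-- The commutator with a nonconstant homogeneous element is injective. -/
theorem inj_comm [IsDomain L0] {m : ℕ} (hm : 0 < m) (hmN : m ≤ N) {h : A K} (hh : Hom m h)
    (h0 : h ≠ 0) (X : EE N L0) (hX : t1 N π h * X = X * t2 N π h) : X = 0 := by
  refine inj_tensor N π hmN (Finset.univ : Finset Bool) ⟨true, Finset.mem_univ _⟩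
    (fun k => if k then h else algebraMap K (A K) (-1)) (fun k => if k then 1 else h)
    (fun k => if k then 0 else m) ?_ ?_ ?_ ?_ ?_ X ?_
  · intro k _; cases k <;> simp
  · intro k _
    cases k
    · simp only [Bool.false_eq_true, if_false, Nat.sub_self]
      rw [Hom, AlgHom.commutes, pow_zero, mul_one]
      rfl
    · simpa using hh
  · intro k _
    cases k
    · simpa using hh
    · simp only [if_true]
      rw [Hom, map_one, pow_zero, mul_one, map_one]
  · intro k _
    cases k
    · simp
    · simpa using h0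
  · rw [Finset.coe_univ, linearIndepOn_univ_iff]
    rw [Fintype.linearIndependent_iff]
    intro g hg
    rw [Fintype.sum_bool] at hg
    simp only [if_true, Bool.false_eq_true, if_false] at hg
    obtain ⟨w, hw, hw0⟩ := exists_co_ne hh h0
    have h1 := congrArg (co w) hg
    rw [map_add, map_smul, map_smul, map_zero, ← mon_one, co_mon, if_neg] at h1
    · rw [smul_zero, zero_add, smul_eq_mul] at h1
      have hf := (mul_eq_zero.mp h1).resolve_right hw0
      have h2 := congrArg (co 1) hg
      rw [hf, zero_smul, add_zero, map_smul, map_zero, ← mon_one, co_mon, if_pos rfl, smul_eq_mul,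
        mul_one] at h2
      intro k
      cases k
      · exact hf
      · exact h2
    · rintro rfl
      rw [FreeMonoid.length_one] at hw
      omega
  · rw [Fintype.sum_bool]
    simp only [if_true, Bool.false_eq_true, if_false]
    rw [map_one, mul_one, AlgHom.commutes, hX, map_neg, map_one, neg_mul, one_mul, neg_mul,
      add_neg_cancel]

end Pool.Agent.H17.TA
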