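import Pool.Agent.H17.TA.Fox

/-!
The polynomial layer over an abstract ring `E`: degrees and the corrected derivation.
-/

namespace Pool.Agent.H17.TA

open Pool.Agent.H66.TA FreeAlgebra Polynomial
open scoped TensorProduct

variable {K : Type*} [Field K] {E : Type*} [Ring E] [Algebra K E]

/-- A representation with the degree variable. -/
noncomputable def pl (s : A K →ₐ[K] E) : A K →ₐ[K] E[X] := (mapAlgHom s).comp tp

theorem pl_coeff (s : A K →ₐ[K] E) (a : A K) (k : ℕ) : (pl s a).coeff k = s (hc k a) := by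
  show ((tp a).map (s : A K →+* E)).coeff k = _
  rw [coeff_map]
  rfl

theorem pl_deg (s : A K →ₐ[K] E) (a : A K) : (pl s a).natDegree ≤ dg a := natDegree_map_le

theorem pl_x (s : A K →ₐ[K] E) (i : Fin 3) : pl s (x K i) = C (s (x K i)) * X := by
  show (tp (x K i)).map (s : A K →+* E) = _
  rw [tp_x, Polynomial.map_mul, map_C, map_X]
  rfl

theorem pl_mon (s : A K →ₐ[K] E) (w : FreeMonoid (Fin 3)) :
    pl s (mon w) = C (s (mon w)) * X ^ w.length := by
  show (tp (mon w)).map (s : A K →+* E) = _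
  rw [tp_mon, Polynomial.map_mul, map_C, Polynomial.map_pow, map_X]
  rfl

/-- The homogenised derivation. -/
theorem exists_hder {s1 s2 : A K →ₐ[K] E} {D : A K →ₗ[K] E} (hD : IsDer s1 s2 D) :
    ∃ D' : A K →ₗ[K] E[X], IsDer (pl s1) (pl s2) D' ∧ ∀ a k, (D' a).coeff k = D (hc k a) := by
  obtain ⟨D', hD', hx⟩ := exists_der (pl s1) (pl s2) (fun i => C (D (x K i)) * X)
  refine ⟨D', hD', ?_⟩
  have hw : ∀ w : FreeMonoid (Fin 3), D' (mon w) = C (D (mon w)) * X ^ w.length := by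
    intro w
    induction w using FreeMonoid.inductionOn' with
    | one => rw [mon_one, hD'.map_one, hD.map_one, C_0, zero_mul]
    | of_mul i w ih =>
      rw [mon_mul, mon_of, hD', hD, hx, ih, pl_x, pl_mon, FreeMonoid.length_mul,
        FreeMonoid.length_of, pow_add, pow_one, C_add, add_mul, C_mul, C_mul]
      congr 1
      · rw [mul_assoc, mul_assoc, ← mul_assoc X, X_mul_C, mul_assoc]
      · rw [mul_assoc, mul_assoc, ← mul_assoc X, X_mul_C, mul_assoc]
  intro a k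
  let F : A K →ₗ[K] E :=
    { toFun := fun a => (D' a).coeff k
      map_add' := fun a b => by rw [map_add, coeff_add]
      map_smul' := fun c a => by rw [map_smul, coeff_smul, RingHom.id_apply] }
  have : F = D.comp (hc k) := by
    apply lin_ext
    intro w
    show (D' (mon w)).coeff k = D (hc k (mon w))
    rw [hw, coeff_C_mul, coeff_X_pow, hc_apply, tp_mon, coeff_C_mul, coeff_X_pow]
    split_ifs
    · rw [mul_one, mul_one]
    · rw [mul_zero, mul_zero, map_zero]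
  exact LinearMap.congr_fun this a

variable {L : Type*} [CommRing L] [IsDomain L] [Algebra L E]

/-- Scalars are central on the polynomial layer. -/
theorem scal_comm (Δ : L[X]) (Z : E[X]) :
    Δ.map (algebraMap L E) * Z = Z * Δ.map (algebraMap L E) := by
  ext k
  rw [coeff_mul, coeff_mul]
  rw [← Finset.Nat.sum_antidiagonal_swap]
  apply Finset.sum_congr rfl
  rintro ⟨i, j⟩ _
  simp only [Prod.fst_swap, Prod.snd_swap, coeff_map]
  exact Algebra.commutes _ _

variable (L) in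
/-- The properties of the generic pair which are used. -/
structure Good (s1 s2 : A K →ₐ[K] E) (N : ℕ) : Prop where
  tens : ∀ (r n : ℕ), n ≤ N → ∀ (S : Finset (Fin r)), S.Nonempty → ∀ (u v : Fin r → A K)
    (m : Fin r → ℕ), (∀ k ∈ S, m k ≤ n) → (∀ k ∈ S, Hom (n - m k) (u k)) →
    (∀ k ∈ S, Hom (m k) (v k)) → (∀ k ∈ S, u k ≠ 0) → LinearIndepOn K v (S : Set (Fin r)) →
    ∀ X : E, ∑ k ∈ S, s1 (u k) * X * s2 (v k) = 0 → X = 0
  comm : ∀ (m : ℕ), 0 < m → m ≤ N → ∀ h : A K, Hom m h → h ≠ 0 → ∀ X : E, s1 h * X = X * s2 h → X = 0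
  der : ∃ D : A K →ₗ[K] E, IsDer s1 s2 D ∧ ∀ (m n : ℕ) (h q : A K), Hom m h → Hom n q → 0 < m →
    0 < n → m * n ≤ N → h ≠ 0 → ∀ (Δ : L) (S : E), Δ ≠ 0 → s1 h * S = S * s2 h + Δ • D h →
    s1 q * S = S * s2 q + Δ • D q → Commute q h
  sol : ∀ (r1 r2 : E[X]), (∀ Z : E[X], r1 * Z = Z * r2 → Z = 0) → ∀ Y : E[X],
    ∃ Δ : L[X], Δ ≠ 0 ∧ ∃ S : E[X], r1 * S = S * r2 + Δ.map (algebraMap L E) * Y

section

variable {s1 s2 : A K →ₐ[K] E} {N : ℕ} (hG : Good L s1 s2 N)

theorem phi_coeff {b : A K} (Z : E[X]) :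
    (pl s1 b * Z).coeff (dg b + Z.natDegree) = s1 (lf b) * Z.leadingCoeff ∧
    (Z * pl s2 b).coeff (dg b + Z.natDegree) = Z.leadingCoeff * s2 (lf b) := by
  constructor
  · rw [coeff_mul_add_eq_of_natDegree_le (pl_deg s1 b) le_rfl, pl_coeff]
    rfl
  · rw [add_comm, coeff_mul_add_eq_of_natDegree_le le_rfl (pl_deg s2 b), pl_coeff]
    rfl

include hG

theorem phi_inj {b : A K} (hb : dg b ≠ 0) (hN : dg b ≤ N) {Z : E[X]}
    (h : pl s1 b * Z = Z * pl s2 b) : Z = 0 := by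
  have hb0 : b ≠ 0 := fun h => hb (by rw [h, dg_zero])
  have h1 := phi_coeff (s1 := s1) (s2 := s2) (b := b) Z
  rw [h, h1.2] at h1
  have h2 := hG.comm _ (Nat.pos_of_ne_zero hb) hN _ (hom_lf b) (lf_ne_zero hb0) _ h1.1.symm
  exact leadingCoeff_eq_zero.mp h2

theorem phi_deg {b : A K} (hb : dg b ≠ 0) (hN : dg b ≤ N) {Z Y : E[X]} (hZ : Z ≠ 0)
    (h : pl s1 b * Z = Z * pl s2 b + Y) : dg b + Z.natDegree ≤ Y.natDegree := by
  have hb0 : b ≠ 0 := fun h => hb (by rw [h, dg_zero])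
  by_contra hlt
  rw [not_le] at hlt
  have h1 := phi_coeff (s1 := s1) (s2 := s2) (b := b) Z
  rw [h, coeff_add, h1.2, coeff_eq_zero_of_natDegree_lt hlt, add_zero] at h1
  have h2 := hG.comm _ (Nat.pos_of_ne_zero hb) hN _ (hom_lf b) (lf_ne_zero hb0) _ h1.1.symm
  exact hZ (leadingCoeff_eq_zero.mp h2)

/-- The top coefficient of a tensor acting on a nonzero element. -/
theorem lead_tensor_coeff {r : ℕ} {u v : Fin r → A K} (hu : ∀ k, u k ≠ 0)
    (hli : LinearIndependent K (fun k => lf (v k))) (hN : ∀ k, dg (u k) + dg (v k) ≤ N)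
    {Z : E[X]} (hZ : Z ≠ 0) (k : Fin r) :
    ∃ n, (∀ k, dg (u k) + dg (v k) ≤ n) ∧ n ≤ N ∧
      (∑ k, pl s1 (u k) * Z * pl s2 (v k)).coeff (n + Z.natDegree) ≠ 0 := by
  obtain ⟨k1, -, hmax⟩ := (Finset.univ : Finset (Fin r)).exists_max_image
    (fun k => dg (u k) + dg (v k)) ⟨k, Finset.mem_univ _⟩
  set n := dg (u k1) + dg (v k1) with hn
  have hmax' : ∀ k, dg (u k) + dg (v k) ≤ n := fun k => hmax k (Finset.mem_univ _)
  refine ⟨n, hmax', hN k1, ?_⟩
  intro h0
  rw [finsetSum_coeff] at h0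
  set S := (Finset.univ : Finset (Fin r)).filter (fun k => dg (u k) + dg (v k) = n) with hS
  have h1 : ∀ k, (pl s1 (u k) * Z * pl s2 (v k)).coeff (n + Z.natDegree) =
      if dg (u k) + dg (v k) = n then s1 (lf (u k)) * Z.leadingCoeff * s2 (lf (v k)) else 0 := by
    intro k
    have hd : (pl s1 (u k) * Z).natDegree ≤ dg (u k) + Z.natDegree :=
      natDegree_mul_le.trans (Nat.add_le_add_right (pl_deg _ _) _)
    split_ifs with h
    · have e : n + Z.natDegree = (dg (u k) + Z.natDegree) + dg (v k) := by omega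
      rw [e, coeff_mul_add_eq_of_natDegree_le hd (pl_deg _ _),
        coeff_mul_add_eq_of_natDegree_le (pl_deg _ _) le_rfl, pl_coeff, pl_coeff]
      rfl
    · apply coeff_eq_zero_of_natDegree_lt
      refine lt_of_le_of_lt (natDegree_mul_le.trans (Nat.add_le_add hd (pl_deg _ _))) ?_
      have := hmax' k
      omega
  rw [Finset.sum_congr rfl (fun k _ => h1 k), ← Finset.sum_filter, ← hS] at h0
  have hSne : S.Nonempty := ⟨k1, by rw [hS, Finset.mem_filter]; exact ⟨Finset.mem_univ _, rfl⟩⟩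
  have h2 := hG.tens r n (hN k1) S hSne (fun k => lf (u k)) (fun k => lf (v k))
    (fun k => dg (v k)) ?_ ?_ ?_ ?_ ?_ _ h0
  · exact hZ (leadingCoeff_eq_zero.mp h2)
  · intro k hk
    rw [hS, Finset.mem_filter] at hk
    omega
  · intro k hk
    rw [hS, Finset.mem_filter] at hk
    have e : n - dg (v k) = dg (u k) := by omega
    rw [e]
    exact hom_lf _
  · intro k _
    exact hom_lf _
  · intro k _
    exact lf_ne_zero (hu k)
  · exact hli.linearIndepOn _

/-- The degree of a tensor acting on a nonzero element. -/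
theorem lead_tensor {r : ℕ} {u v : Fin r → A K} (hu : ∀ k, u k ≠ 0)
    (hli : LinearIndependent K (fun k => lf (v k))) (hN : ∀ k, dg (u k) + dg (v k) ≤ N)
    {Z : E[X]} (hZ : Z ≠ 0) (k : Fin r) :
    dg (u k) + dg (v k) + Z.natDegree ≤ (∑ k, pl s1 (u k) * Z * pl s2 (v k)).natDegree ∧
      ∑ k, pl s1 (u k) * Z * pl s2 (v k) ≠ 0 := by
  obtain ⟨n, hn, -, h⟩ := lead_tensor_coeff hG hu hli hN hZ k
  refine ⟨(Nat.add_le_add_right (hn k) _).trans (le_natDegree_of_ne_zero h), ?_⟩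
  intro h0
  apply h
  rw [h0, coeff_zero]

/-- The corrected derivation. -/
theorem exists_delta {b : A K} (hb : dg b ≠ 0) (hN : dg b ≤ N) :
    ∃ (δ : A K →ₗ[K] E[X]) (d0 : ℕ), IsDer (pl s1) (pl s2) δ ∧ δ b = 0 ∧
      ∀ Q : A K, dg Q ≠ 0 → dg b * dg Q ≤ N → ¬ Commute (lf Q) (lf b) →
        (δ Q).natDegree = d0 + dg Q ∧ δ Q ≠ 0 := by
  have hb0 : b ≠ 0 := fun h => hb (by rw [h, dg_zero])
  obtain ⟨D, hD, hcom⟩ := hG.der
  obtain ⟨D', hD', hco⟩ := exists_hder hD
  have hD'deg : ∀ Q, (D' Q).natDegree ≤ dg Q := by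
    intro Q
    rw [natDegree_le_iff_coeff_eq_zero]
    intro k hk
    rw [hco, hc_eq_zero_of_lt hk, map_zero]
  obtain ⟨Δ, hΔ, S, hS⟩ := hG.sol (pl s1 b) (pl s2 b) (fun Z hZ => phi_inj hG hb hN hZ) (D' b)
  set Δ' := Δ.map (algebraMap L E) with hΔ'
  set d0 := Δ.natDegree with hd0
  have hΔ'deg : Δ'.natDegree ≤ d0 := natDegree_map_le
  -- degree of `S`
  have hSdeg : S.natDegree ≤ d0 := by
    by_cases hS0 : S = 0
    · rw [hS0, natDegree_zero]; exact Nat.zero_le _
    · have h1 := phi_deg hG hb hN hS0 hS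
      have h2 : (Δ' * D' b).natDegree ≤ d0 + dg b :=
        natDegree_mul_le.trans (Nat.add_le_add hΔ'deg (hD'deg b))
      omega
  have hSb : s1 (lf b) * S.coeff d0 = S.coeff d0 * s2 (lf b) + Δ.leadingCoeff • D (lf b) := by
    have h1 := congrArg (fun Z => Z.coeff (dg b + d0)) hS
    simp only [coeff_add] at h1
    rw [coeff_mul_add_eq_of_natDegree_le (pl_deg s1 b) hSdeg, pl_coeff, add_comm (dg b) d0,
      coeff_mul_add_eq_of_natDegree_le hSdeg (pl_deg s2 b), pl_coeff,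
      coeff_mul_add_eq_of_natDegree_le hΔ'deg (hD'deg b), hco, hΔ', coeff_map,
      ← Algebra.smul_def] at h1
    exact h1
  let δ : A K →ₗ[K] E[X] := (LinearMap.mulLeft K Δ').comp D' -
    ((LinearMap.mulRight K S).comp (pl s1).toLinearMap -
      (LinearMap.mulLeft K S).comp (pl s2).toLinearMap)
  have hδ : ∀ Q, δ Q = Δ' * D' Q - (pl s1 Q * S - S * pl s2 Q) := fun Q => rfl
  refine ⟨δ, d0, ?_, ?_, ?_⟩
  · intro P Q
    rw [hδ, hδ, hδ, hD', map_mul, map_mul, mul_add, ← mul_assoc Δ', scal_comm Δ (pl s1 P),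
      ← mul_assoc Δ', mul_sub, sub_mul, mul_assoc (pl s1 P)]
    noncomm_ring
  · rw [hδ, hS]
    abel
  · intro Q hQ hQN hnc
    have hQ0 : Q ≠ 0 := fun h => hQ (by rw [h, dg_zero])
    have hco2 : (δ Q).coeff (d0 + dg Q) = Δ.leadingCoeff • D (lf Q) -
        (s1 (lf Q) * S.coeff d0 - S.coeff d0 * s2 (lf Q)) := by
      rw [hδ, coeff_sub, coeff_sub, coeff_mul_add_eq_of_natDegree_le hΔ'deg (hD'deg Q),
        coeff_mul_add_eq_of_natDegree_le hSdeg (pl_deg s2 Q), add_comm d0 (dg Q),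
        coeff_mul_add_eq_of_natDegree_le (pl_deg s1 Q) hSdeg, pl_coeff, pl_coeff, hco, hΔ',
        coeff_map, Algebra.smul_def]
      rfl
    have hne : (δ Q).coeff (d0 + dg Q) ≠ 0 := by
      intro h0
      rw [hco2] at h0
      apply hnc
      refine hcom (dg b) (dg Q) (lf b) (lf Q) (hom_lf b) (hom_lf Q) (Nat.pos_of_ne_zero hb)
        (Nat.pos_of_ne_zero hQ) hQN (lf_ne_zero hb0) Δ.leadingCoeff (S.coeff d0)
        (leadingCoeff_ne_zero.mpr hΔ) hSb ?_
      have h1 := sub_eq_zero.mp h0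
      rw [h1]
      abel
    have hle : (δ Q).natDegree ≤ d0 + dg Q := by
      rw [hδ]
      refine (natDegree_sub_le _ _).trans (max_le ?_ ((natDegree_sub_le _ _).trans (max_le ?_ ?_)))
      · exact natDegree_mul_le.trans (Nat.add_le_add hΔ'deg (hD'deg Q))
      · rw [add_comm]
        exact natDegree_mul_le.trans (Nat.add_le_add (pl_deg _ _) hSdeg)
      · exact natDegree_mul_le.trans (Nat.add_le_add hSdeg (pl_deg _ _))
    refine ⟨le_antisymm hle (le_natDegree_of_ne_zero hne), ?_⟩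
    intro h0
    apply hne
    rw [h0, coeff_zero]

end

end Pool.Agent.H17.TA
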