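import Pool.Agent.H17.TA.Sol

/-!
The key inequality for the Fox derivative.
-/

namespace Pool.Agent.H17.TA

open Pool.Agent.H66.TA FreeAlgebra Polynomial
open scoped TensorProduct

variable {K : Type*} [Field K]

/-- A derivation composed with an automorphism. -/
theorem IsDer.comp_aut {Λ : Type*} [Ring Λ] [Algebra K Λ] {r1 r2 : A K →ₐ[K] Λ}
    {D : A K →ₗ[K] Λ} (hD : IsDer r1 r2 D) (g : Gp K) :
    IsDer (r1.comp (g : A K →ₐ[K] A K)) (r2.comp (g : A K →ₐ[K] A K))
      (D.comp (g : A K →ₐ[K] A K).toLinearMap) := by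
  intro P Q
  show D (g (P * Q)) = r1 (g P) * D (g Q) + D (g P) * r2 (g Q)
  rw [map_mul, hD]

variable [CharZero K]

/-- **The key inequality.** -/
theorem nd (g : Gp K) {P : A K} (hP : P ∈ (B : Subalgebra K (A K)))
    (hab : br (g (x K 1)) (g (x K 2)) ≠ 0) {r : ℕ} {u v : Fin r → A K} (hr : Rep g 1 P u v)
    (k : Fin r) : dg (g (u k)) + dg (g (v k)) + dg (br (g (x K 1)) (g (x K 2))) ≤
      dg (br (g P) (g (x K 2))) := by
  set a := g (x K 1) with ha
  set b := g (x K 2) with hb
  have hb0 : dg b ≠ 0 := dg_gx g 2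
  -- choose `N`
  let n0 : ℕ := ∑ k, (dg (g (u k)) + dg (g (v k)))
  let N : ℕ := n0 + dg b * dg (br a b) + dg b * dg (br (g P) b) + dg b + 1
  have : NeZero N := ⟨Nat.succ_ne_zero _⟩
  obtain ⟨π⟩ := exists_wpair K N
  have hG := good K N π
  have hbN : dg b ≤ N := by show dg b ≤ n0 + _ + _ + dg b + 1; omega
  obtain ⟨δ, d0, hδ, hδb, hδQ⟩ := exists_delta hG hb0 hbN
  have hN1 : dg b * dg (br a b) ≤ N := by show _ ≤ n0 + _ + _ + dg b + 1; omega
  have hN2 : dg b * dg (br (g P) b) ≤ N := by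
    show _ ≤ n0 + _ + dg b * dg (br (g P) b) + dg b + 1; omega
  -- degree of `δ Q`
  have hdeg : ∀ Q : A K, br Q b ≠ 0 → dg b * dg (br Q b) ≤ N →
      δ Q ≠ 0 ∧ dg b + (δ Q).natDegree = d0 + dg (br Q b) := by
    intro Q hQ hQN
    have e1 : δ (br Q b) = δ Q * pl (t2 N π) b - pl (t1 N π) b * δ Q := by
      rw [br, map_sub, hδ, hδ, hδb, mul_zero, zero_mul, zero_add, add_zero]
    have hnc : ¬ Commute (lf (br Q b)) (lf b) := by
      have h1 : b * Q - Q * b ≠ 0 := by
        intro h
        apply hQ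
        rw [br, sub_eq_zero]
        exact (sub_eq_zero.mp h).symm
      have h2 := tprime b Q h1
      have h3 : br Q b = -(b * Q - Q * b) := by rw [br, neg_sub]
      rw [h3, lf_neg]
      intro h4
      exact h2 ((Commute.neg_left_iff).mp h4)
    have hdne : dg (br Q b) ≠ 0 := by
      intro h0
      obtain ⟨c, hc⟩ := dg_eq_zero.mp h0
      apply hnc
      have : lf (br Q b) = algebraMap K (A K) c := by
        rw [hc, lf, AlgHom.commutes]
        exact leadingCoeff_C _
      rw [this]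
      exact Algebra.commutes _ _
    obtain ⟨h1, h2⟩ := hδQ (br Q b) hdne hQN hnc
    have hQ0 : δ Q ≠ 0 := by
      intro h
      apply h2
      rw [e1, h, zero_mul, mul_zero, sub_zero]
    refine ⟨hQ0, ?_⟩
    have e2 : pl (t1 N π) b * δ Q = δ Q * pl (t2 N π) b + -(δ (br Q b)) := by
      rw [e1]; abel
    have h3 := phi_deg hG hb0 hbN hQ0 e2
    rw [natDegree_neg, h1] at h3
    have h4 : (δ (br Q b)).natDegree ≤ dg b + (δ Q).natDegree := by
      rw [e1]
      refine (natDegree_sub_le _ _).trans (max_le ?_ ?_)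
      · rw [add_comm]
        exact natDegree_mul_le.trans (Nat.add_le_add_left (pl_deg _ _) _)
      · exact natDegree_mul_le.trans (Nat.add_le_add_right (pl_deg _ _) _)
    rw [h1] at h4
    exact le_antisymm h3 h4
  obtain ⟨ha0, hadeg⟩ := hdeg a hab hN1
  -- the formula
  have hform : δ (g P) = ∑ k, pl (t1 N π) (g (u k)) * δ a * pl (t2 N π) (g (v k)) := by
    have h1 := der_eq_B _ _ (hδ.comp_aut g) hP
    have h2 : (δ.comp (g : A K →ₐ[K] A K).toLinearMap) (x K 2) = 0 := hδb
    have h3 : (δ.comp (g : A K →ₐ[K] A K).toLinearMap) (x K 1) = δ a := rfl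
    have h4 : (δ.comp (g : A K →ₐ[K] A K).toLinearMap) P = δ (g P) := rfl
    rw [h2, h3, h4, hr.eq, map_sum] at h1
    rw [h1]
    have h5 : act ((pl (t1 N π)).comp (g : A K →ₐ[K] A K)) ((pl (t2 N π)).comp
        (g : A K →ₐ[K] A K)) 0 (dd 2 P) = 0 := by
      induction dd 2 P using TensorProduct.induction_on with
      | zero => rw [map_zero]
      | tmul a b => rw [act_tmul, mul_zero, zero_mul]
      | add a b ha hb => rw [map_add, ha, hb, add_zero]
    rw [h5, add_zero]
    rfl
  have hlead := lead_tensor hG (u := fun k => g (u k)) (v := fun k => g (v k))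
    (fun k => (map_ne_zero_iff g g.injective).mpr (hr.ne k)) hr.li (fun k => by
      have h1 : dg (g (u k)) + dg (g (v k)) ≤ n0 :=
        Finset.single_le_sum (f := fun k => dg (g (u k)) + dg (g (v k)))
          (fun _ _ => Nat.zero_le _) (Finset.mem_univ k)
      show _ ≤ n0 + _ + _ + _ + 1
      omega) ha0 k
  rw [← hform] at hlead
  have hne : br (g P) b ≠ 0 := by
    intro h0
    have e1 : δ (br (g P) b) = δ (g P) * pl (t2 N π) b - pl (t1 N π) b * δ (g P) := by
      rw [br, map_sub, hδ, hδ, hδb, mul_zero, zero_mul, zero_add, add_zero]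
    rw [h0, map_zero] at e1
    exact hlead.2 (phi_inj hG hb0 hbN (sub_eq_zero.mp e1.symm).symm)
  obtain ⟨-, hPdeg⟩ := hdeg (g P) hne hN2
  have := hlead.1
  omega

end Pool.Agent.H17.TA
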