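import Pool.Agent.H17.TA.Tprime

/-!
Centralisers of homogeneous elements.
-/

namespace Pool.Agent.H17.TA

open Pool.Agent.H66.TA FreeAlgebra

variable {K : Type*} [Field K]

theorem word_split {P Q U V : FreeMonoid (Fin 3)} (h : U.length = P.length) :
    U * V = P * Q ↔ U = P ∧ V = Q := by
  constructor
  · intro e
    have e' : U.toList ++ V.toList = P.toList ++ Q.toList := e
    have := List.append_inj e' h
    exact ⟨FreeMonoid.toList.injective this.1, FreeMonoid.toList.injective this.2⟩
  · rintro ⟨rfl, rfl⟩; rfl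

/-- Coefficients of a product with a homogeneous left factor. -/
theorem co_mul_hom {m : ℕ} {u : A K} (hu : Hom m u) {P : FreeMonoid (Fin 3)} (hP : P.length = m)
    (Q : FreeMonoid (Fin 3)) (v : A K) : co (P * Q) (u * v) = co P u * co Q v := by
  let F : A K →ₗ[K] K := (co (P * Q)).comp (LinearMap.mulRight K v)
  let G : A K →ₗ[K] K := (LinearMap.mulRight K (co Q v)).comp (co P)
  have : F u = G u := by
    apply hom_ext_word F G _ hu
    intro U hU
    let F2 : A K →ₗ[K] K := (co (P * Q)).comp (LinearMap.mulLeft K (mon U))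
    let G2 : A K →ₗ[K] K := (LinearMap.mulLeft K (co P (mon (K := K) U))).comp (co Q)
    have h2 : F2 = G2 := by
      apply lin_ext
      intro V
      show co (K := K) (P * Q) (mon U * mon V) = co (K := K) P (mon U) * co Q (mon V)
      rw [← mon_mul, co_mon, co_mon, co_mon]
      have := word_split (P := P) (Q := Q) (U := U) (V := V) (by rw [hU, hP])
      by_cases h1 : U = P
      · by_cases h3 : V = Q
        · rw [if_pos (this.mpr ⟨h1, h3⟩), if_pos h1, if_pos h3, one_mul]
        · rw [if_neg (fun e => h3 (this.mp e).2), if_neg h3, mul_zero]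
      · rw [if_neg (fun e => h1 (this.mp e).1), if_neg h1, zero_mul]
    exact LinearMap.congr_fun h2 v
  exact this

theorem Hom.sub {n : ℕ} {a b : A K} (ha : Hom n a) (hb : Hom n b) : Hom n (a - b) := by
  rw [Hom, map_sub, ha, hb, Polynomial.C_sub, sub_mul]

theorem co_hom_eq_zero {n : ℕ} {q : A K} (hq : Hom n q) {w : FreeMonoid (Fin 3)}
    (hw : w.length ≠ n) : co w q = 0 := by
  have : co w q = (0 : A K →ₗ[K] K) q := by
    apply hom_ext_word (n := n) (co w) 0 _ hq
    intro v hv
    rw [co_mon, if_neg]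
    · rfl
    · rintro rfl
      exact hw hv
  exact this

/-- Commuting homogeneous elements of the same degree are proportional. -/
theorem prop_of_comm {n : ℕ} {u v : A K} (hu : Hom n u) (hv : Hom n v) (hv0 : v ≠ 0)
    (hc : u * v = v * u) : ∃ c : K, u = c • v := by
  obtain ⟨P, hP⟩ : ∃ w, co w v ≠ 0 := by
    by_contra h
    push Not at h
    exact hv0 (eq_of_co (fun w => by rw [h w, map_zero]))
  have hPn : P.length = n := by
    by_contra hne
    exact hP (co_hom_eq_zero hv hne)
  refine ⟨co P u / co P v, ?_⟩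
  apply eq_of_co
  intro w
  rw [map_smul, smul_eq_mul]
  by_cases hw : w.length = n
  · have h1 := co_mul_hom hu hPn w v
    rw [hc, co_mul_hom hv hPn w u] at h1
    field_simp
    rw [← h1, mul_comm]
  · rw [co_hom_eq_zero hu hw, co_hom_eq_zero hv hw, mul_zero]

theorem pow_of_comm {n s : ℕ} {u v : A K} (hu : Hom (n * s) u) (hv : Hom n v) (hv0 : v ≠ 0)
    (hc : Commute u v) : ∃ c : K, u = c • v ^ s :=
  prop_of_comm hu (hom_pow hv s) (pow_ne_zero _ hv0) (hc.pow_right s)

/-- A homogeneous element of degree divisible by `N` which commutes with a homogeneous element of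
degree prime to `N` is represented by a scalar. -/
theorem rho_scalar {N : ℕ} [NeZero N] (hNp : N.Prime) {M m : ℕ} {q f : A K} (hq : Hom M q)
    (hM : (M : ZMod N) = 0) (hf : Hom m f) (f0 : f ≠ 0) (hm : 0 < m) (hmN : m < N)
    (hc : q * f = f * q) : rho N q = rho N q 0 0 • (1 : Matrix (ZMod N) (ZMod N) (W K N)) := by
  have : Fact N.Prime := ⟨hNp⟩
  have hstep : ∀ a : ZMod N, rho N q a a = rho N q (a + (m : ZMod N)) (a + (m : ZMod N)) := by
    intro a
    have h1 := rho_mul_apply N hq (q := f) a (a + (m : ZMod N))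
    have h2 := rho_mul_apply N hf (q := q) a (a + (m : ZMod N))
    rw [hM, add_zero] at h1
    rw [hc, h2, mul_comm] at h1
    exact (mul_right_cancel₀ (rho_ne_zero N hf f0 (by omega) a) h1).symm
  have hconst : ∀ a : ZMod N, rho N q a a = rho N q 0 0 := by
    have h1 : ∀ n : ℕ, rho N q ((n * m : ℕ) : ZMod N) ((n * m : ℕ) : ZMod N) = rho N q 0 0 := by
      intro n
      induction n with
      | zero => simp
      | succ n ih =>
        have := hstep ((n * m : ℕ) : ZMod N)
        have e : (((n + 1) * m : ℕ) : ZMod N) = ((n * m : ℕ) : ZMod N) + (m : ZMod N) := by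
          push_cast; ring
        rw [← ih, this, e]
    intro a
    have h0 : ((m : ℕ) : ZMod N) ≠ 0 := by
      intro h
      rw [ZMod.natCast_eq_zero_iff] at h
      exact absurd (Nat.le_of_dvd hm h) (by omega)
    have h2 := h1 (a * ((m : ℕ) : ZMod N)⁻¹).val
    have e : (((a * ((m : ℕ) : ZMod N)⁻¹).val * m : ℕ) : ZMod N) = a := by
      push_cast
      rw [ZMod.natCast_val, ZMod.cast_id', id_eq]
      field_simp
    rwa [e] at h2
  ext1 a b
  rw [Matrix.smul_apply, Matrix.one_apply]
  by_cases hab : a = b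
  · subst hab
    rw [if_pos rfl, smul_eq_mul, mul_one, hconst]
  · rw [if_neg hab, smul_zero]
    apply rho_eq_zero N hq
    rw [hM, add_zero]
    exact fun e => hab e.symm

theorem rho_inj {N : ℕ} [NeZero N] {n : ℕ} {q : A K} (hq : Hom n q) (hn : n ≤ N)
    (h : rho N q = 0) : q = 0 := by
  by_contra h0
  exact rho_ne_zero N hq h0 hn 0 (by rw [h, Matrix.zero_apply])

/-- If a power of `u` commutes with `v`, so does `u`. -/
theorem comm_of_pow {n k a : ℕ} {u v : A K} (hu : Hom n u) (hv : Hom k v) (hn : 0 < n)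
    (ha : 0 < a) (hc : Commute (u ^ a) v) : Commute u v := by
  by_cases hu0 : u = 0
  · rw [hu0]; exact Commute.zero_left v
  obtain ⟨N, hNge, hNp⟩ := Nat.exists_infinite_primes (n + k + a + 1)
  have : NeZero N := ⟨hNp.ne_zero⟩
  have : Fact N.Prime := ⟨hNp⟩
  -- `r * a = 1 + s * N`
  obtain ⟨r, s, hrs⟩ : ∃ r s : ℕ, a * r = 1 + N * s := by
    have ha0 : (a : ZMod N) ≠ 0 := by
      intro h
      rw [ZMod.natCast_eq_zero_iff] at h
      exact absurd (Nat.le_of_dvd ha h) (by omega)
    set r := ((a : ZMod N)⁻¹).val with hr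
    have h1 : ((a * r : ℕ) : ZMod N) = ((1 : ℕ) : ZMod N) := by
      push_cast
      rw [hr, ZMod.natCast_val, ZMod.cast_id', id_eq, mul_inv_cancel₀ ha0]
    have hr0 : 0 < r := by
      rw [Nat.pos_iff_ne_zero]
      intro h0
      rw [h0, mul_zero, Nat.cast_zero, Nat.cast_one] at h1
      exact zero_ne_one h1
    rw [ZMod.natCast_eq_natCast_iff] at h1
    have h2 : 1 ≤ a * r := Nat.mul_pos ha hr0
    obtain ⟨s, hs⟩ := (Nat.modEq_iff_dvd' h2).mp h1.symm
    exact ⟨r, s, by omega⟩
  have hscal : rho N (u ^ (N * s)) = rho N (u ^ (N * s)) 0 0 •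
      (1 : Matrix (ZMod N) (ZMod N) (W K N)) := by
    apply rho_scalar hNp (hom_pow hu (N * s)) (by push_cast; simp) hu hu0 hn (by omega)
    rw [← pow_succ, ← pow_succ']
  have hne : rho N (u ^ (N * s)) 0 0 ≠ 0 := by
    have := rho_pow_ne N hu hu0 (by omega) (N * s) 0
    have e : (0 : ZMod N) + ((n * (N * s) : ℕ) : ZMod N) = 0 := by push_cast; simp
    rwa [e] at this
  have h1 : Commute (u ^ (1 + N * s)) v := by
    rw [← hrs, pow_mul]
    exact hc.pow_left r
  have h2 : rho N (u ^ (1 + N * s) * v) = rho N (v * u ^ (1 + N * s)) := by rw [h1.eq]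
  rw [pow_add, pow_one, map_mul, map_mul, map_mul, map_mul, hscal, mul_smul_comm, mul_one,
    mul_smul_comm, smul_mul_assoc] at h2
  have h3 : rho N (u * v - v * u) = 0 := by
    rw [map_sub, map_mul, map_mul, sub_eq_zero]
    ext1 i j
    have h4 := congrFun (congrFun h2 i) j
    rw [Matrix.smul_apply, Matrix.smul_apply, smul_eq_mul, smul_eq_mul] at h4
    exact mul_left_cancel₀ hne h4
  have h4 : Hom (n + k) (u * v - v * u) := by
    have h5 := hv.mul hu
    rw [add_comm] at h5
    exact Hom.sub (hu.mul hv) h5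
  have h5 := rho_inj h4 (by omega) h3
  exact sub_eq_zero.mp h5

/-- Commuting is transitive on nonconstant homogeneous elements. -/
theorem comm_trans {k m n : ℕ} {u v w : A K} (hu : Hom k u) (hv : Hom m v) (hw : Hom n w)
    (hk : 0 < k) (hn : 0 < n) (hw0 : w ≠ 0) (h1 : Commute u w) (h2 : Commute v w) :
    Commute u v := by
  have hu' : Hom (n * k) (u ^ n) := by
    have := hom_pow hu n
    rwa [mul_comm] at this
  obtain ⟨c, hc⟩ := pow_of_comm hu' hw hw0 (h1.pow_left n)
  apply comm_of_pow hu hv hk hn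
  rw [hc]
  exact ((h2.symm).pow_left k).smul_left c

end Pool.Agent.H17.TA
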