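import Pool.Agent.H17.TA.ND

/-!
Facts about pairs in the form used in `Pool.Agent.H66.TA.Pair`.
-/

namespace Pool.Agent.H17.TA

open Pool.Agent.H66.TA FreeAlgebra Polynomial
open scoped TensorProduct

variable {K : Type*} [Field K]

theorem pf_c0 (u v : A K) (hv : dg v ≠ 0) (h : Com u v) (hd : dg v ∣ dg u) :
    ∃ c : K, lf u = c • lf v ^ (dg u / dg v) := by
  have hv0 : v ≠ 0 := fun h => hv (by rw [h, dg_zero])
  have e : dg v * (dg u / dg v) = dg u := Nat.mul_div_cancel' hd
  have hu : Hom (dg v * (dg u / dg v)) (lf u) := by rw [e]; exact hom_lf u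
  exact pow_of_comm hu (hom_lf v) (lf_ne_zero hv0) h

theorem com_of_dg_zero {u : A K} (h : dg u = 0) (v : A K) : Com u v := by
  obtain ⟨c, hc⟩ := dg_eq_zero.mp h
  have : lf u = algebraMap K (A K) c := by
    rw [hc, lf, AlgHom.commutes]
    exact leadingCoeff_C _
  rw [Com, this]
  exact Algebra.commutes _ _

theorem pf_ct (u v w : A K) (hv : dg v ≠ 0) (h1 : Com u v) (h2 : Com v w) : Com u w := by
  have hv0 : v ≠ 0 := fun h => hv (by rw [h, dg_zero])
  by_cases hu : dg u = 0
  · exact com_of_dg_zero hu w
  · exact comm_trans (hom_lf u) (hom_lf w) (hom_lf v) (Nat.pos_of_ne_zero hu)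
      (Nat.pos_of_ne_zero hv) (lf_ne_zero hv0) h1 h2.symm

theorem pf_tc [CharZero K] (a b : A K) (h : br a b ≠ 0) (_ : dg b ≠ 0) : ¬ Com (br a b) b := by
  have h1 : b * a - a * b ≠ 0 := by
    intro h'
    apply h
    rw [br, sub_eq_zero]
    exact (sub_eq_zero.mp h').symm
  have h2 := tprime b a h1
  have h3 : br a b = -(b * a - a * b) := by rw [br, neg_sub]
  rw [Com, h3, lf_neg]
  intro h4
  exact h2 ((Commute.neg_left_iff).mp h4)

/-- Coefficients of long words vanish. -/
theorem co_long {a : A K} {w : FreeMonoid (Fin 3)} (h : dg a < w.length) : co w a = 0 := by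
  have h1 : ∀ a : A K, co w (hc w.length a) = co w a := by
    intro a
    have : (co (K := K) w).comp (hc w.length) = co w := by
      apply lin_ext
      intro v
      show co (K := K) w (hc w.length (mon v)) = co w (mon v)
      rw [hc_apply, tp_mon, coeff_C_mul, coeff_X_pow]
      by_cases hv : w.length = v.length
      · rw [if_pos hv, mul_one]
      · rw [if_neg hv, mul_zero, map_zero, co_mon, if_neg (fun e => hv (by rw [e]))]
    exact LinearMap.congr_fun this a
  rw [← h1, hc_eq_zero_of_lt h, map_zero]

theorem word_all_two {w : FreeMonoid (Fin 3)} (h0 : (0 : Fin 3) ∉ w.toList)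
    (h1 : (1 : Fin 3) ∉ w.toList) : w = FreeMonoid.of 2 ^ w.length := by
  induction w using FreeMonoid.inductionOn' with
  | one => rfl
  | of_mul i w ih =>
    rw [FreeMonoid.toList_mul, FreeMonoid.toList_of, List.singleton_append, List.mem_cons,
      not_or] at h0 h1
    have hi : i = 2 := by
      have e0 := h0.1
      have e1 := h1.1
      fin_cases i
      · exact absurd rfl e0
      · exact absurd rfl e1
      · rfl
    rw [FreeMonoid.length_mul, FreeMonoid.length_of, pow_add, pow_one, ← ih h0.2 h1.2, hi]

theorem split_of_mem {w : FreeMonoid (Fin 3)} {k : Fin 3} (h : k ∈ w.toList) :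
    ∃ u v : FreeMonoid (Fin 3), w = u * FreeMonoid.of k * v := by
  obtain ⟨s, t, hst⟩ := List.append_of_mem h
  refine ⟨FreeMonoid.ofList s, FreeMonoid.ofList t, ?_⟩
  apply FreeMonoid.toList.injective
  rw [hst]
  simp

theorem mem_of_split (u v : FreeMonoid (Fin 3)) (k : Fin 3) :
    k ∈ (u * FreeMonoid.of k * v).toList := by
  simp [FreeMonoid.toList_mul]

theorem mem_pow_two (n : ℕ) : ∀ i ∈ (FreeMonoid.of (2 : Fin 3) ^ n).toList, i = 2 := by
  induction n with
  | zero => intro i hi; simp at hi
  | succ n ih =>
    intro i hi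
    rw [pow_succ', FreeMonoid.toList_mul, FreeMonoid.toList_of, List.singleton_append,
      List.mem_cons] at hi
    rcases hi with hi | hi
    · exact hi
    · exact ih i hi

/-- The kernel of the Fox derivative. -/
theorem dd_kernel {P : A K} (hP : P ∈ (B : Subalgebra K (A K))) (h : dd 1 P = 0) :
    ∃ q : K[X], P = q2 q := by
  have hz : ∀ w : FreeMonoid (Fin 3), (0 ∈ w.toList ∨ 1 ∈ w.toList) → co w P = 0 := by
    rintro w (hw | hw)
    · obtain ⟨u, v, rfl⟩ := split_of_mem hw
      rw [← co2_dd', dd0_B hP, map_zero]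
    · obtain ⟨u, v, rfl⟩ := split_of_mem hw
      rw [← co2_dd', h, map_zero]
  refine ⟨∑ n ∈ Finset.range (dg P + 1), monomial n (co (FreeMonoid.of 2 ^ n) P), ?_⟩
  have hq : q2 (∑ n ∈ Finset.range (dg P + 1), monomial n (co (FreeMonoid.of 2 ^ n) P)) =
      ∑ n ∈ Finset.range (dg P + 1), co (FreeMonoid.of 2 ^ n) P • mon (FreeMonoid.of 2 ^ n) := by
    rw [q2, map_sum]
    apply Finset.sum_congr rfl
    intro n _
    have : ∀ n : ℕ, mon (K := K) (FreeMonoid.of 2 ^ n) = x K 2 ^ n := by
      intro n
      induction n with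
      | zero => rw [pow_zero, pow_zero, mon_one]
      | succ n ih => rw [pow_succ, pow_succ, mon_mul, ih, mon_of]
    rw [aeval_monomial, this, Algebra.smul_def]
  rw [hq]
  apply eq_of_co
  intro w
  rw [map_sum]
  simp only [map_smul, co_mon, smul_eq_mul]
  by_cases hw : 0 ∈ w.toList ∨ 1 ∈ w.toList
  · rw [hz w hw]
    symm
    apply Finset.sum_eq_zero
    intro n _
    rw [if_neg, mul_zero]
    intro e
    have hmem := mem_pow_two n
    rw [e] at hmem
    rcases hw with hw | hw
    · exact absurd (hmem 0 hw) (by decide)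
    · exact absurd (hmem 1 hw) (by decide)
  · rw [not_or] at hw
    have hw2 := word_all_two hw.1 hw.2
    by_cases hl : w.length ∈ Finset.range (dg P + 1)
    · rw [Finset.sum_eq_single_of_mem w.length hl]
      · rw [← hw2, if_pos rfl, mul_one]
      · intro n _ hn
        rw [if_neg, mul_zero]
        intro e
        apply hn
        have := congrArg FreeMonoid.length e
        rw [← this]
        clear * -
        induction n with
        | zero => rfl
        | succ n ih => rw [pow_succ, FreeMonoid.length_mul, ← ih, FreeMonoid.length_of]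
    · rw [Finset.mem_range, not_lt] at hl
      rw [co_long (by omega : dg P < w.length)]
      symm
      apply Finset.sum_eq_zero
      intro n hn
      rw [if_neg, mul_zero]
      intro e
      rw [Finset.mem_range] at hn
      have h5 : (FreeMonoid.of (2 : Fin 3) ^ n).length = n := by
        clear * -
        induction n with
        | zero => rfl
        | succ n ih => rw [pow_succ, FreeMonoid.length_mul, ih, FreeMonoid.length_of]
      rw [← e, h5] at hl
      omega

end Pool.Agent.H17.TA
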