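import Pool.Agent.H17.TA.Final

/-!
The facts about pairs: small degrees.
-/

namespace Pool.Agent.H17.TA

open Pool.Agent.H66.TA FreeAlgebra Polynomial
open scoped TensorProduct

variable {K : Type*} [Field K]

theorem const_of_dg (g : Gp K) {Q : A K} (h : dg (g Q) = 0) :
    ∃ c : K, Q = algebraMap K (A K) c := by
  obtain ⟨c, hc⟩ := dg_eq_zero.mp h
  refine ⟨c, g.injective ?_⟩
  rw [hc, AlgEquiv.commutes]

theorem dd_of_const {g : Gp K} {P : A K} {r : ℕ} {u v : Fin r → A K} (hr : Rep g 1 P u v)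
    (hc : ∀ k, dg (g (u k)) + dg (g (v k)) = 0) : ∃ c : K, dd 1 P = dd 1 (c • x K 1) := by
  choose cu hcu using fun k => const_of_dg g (Nat.eq_zero_of_add_eq_zero_right (hc k))
  choose cv hcv using fun k => const_of_dg g (Nat.eq_zero_of_add_eq_zero_left (hc k))
  refine ⟨∑ k, cu k * cv k, ?_⟩
  rw [map_smul, dd_x, if_pos rfl, hr.eq, Finset.sum_smul]
  apply Finset.sum_congr rfl
  intro k _
  rw [hcu, hcv, Algebra.algebraMap_eq_smul_one, Algebra.algebraMap_eq_smul_one,
    TensorProduct.smul_tmul_smul]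
  rfl

theorem form_of_const {g : Gp K} {P : A K} (hP : P ∈ (B : Subalgebra K (A K))) {r : ℕ}
    {u v : Fin r → A K} (hr : Rep g 1 P u v) (hc : ∀ k, dg (g (u k)) + dg (g (v k)) = 0) :
    ∃ (α : K) (q : K[X]), P = α • x K 1 + q2 q := by
  obtain ⟨c, h⟩ := dd_of_const hr hc
  obtain ⟨q, hq⟩ := dd_kernel (B.sub_mem hP (B.smul_mem x1_mem c))
    (by rw [map_sub, h, sub_self])
  exact ⟨c, q, by rw [← hq, add_sub_cancel]⟩

variable [CharZero K]

theorem pg_n0 (g : Gp K) (P : A K) (hP : P ∈ (B : Subalgebra K (A K)))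
    (h : dg (br (g P) (g (x K 2))) ≤ dg (br (g (x K 1)) (g (x K 2)))) :
    ∃ (α : K) (q : K[X]), P = α • x K 1 + q2 q := by
  obtain ⟨r, u, v, hr⟩ := exists_rep g 1 hP
  apply form_of_const hP hr
  intro k
  have := nd g hP (br_gx_ne g (by decide)) hr k
  omega

section small

variable (g : Gp K) (hnt : NT (g (x K 1)) (g (x K 2))) (hle : dg (g (x K 2)) ≤ dg (g (x K 1)))
  (hd : dg (g (x K 2)) < dg (br (g (x K 1)) (g (x K 2))))

include hnt hle in
omit [CharZero K] in
theorem small_aux {α : K} {q : K[X]} (h : dg (g (α • x K 1 + q2 q)) < dg (g (x K 2))) :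
    α = 0 ∧ q.natDegree = 0 := by
  rw [map_add, map_smul, map_q2] at h
  have h1 := hnt.sum (dg_gx g 2) α q
  have hα : α = 0 := by
    by_contra hne
    rw [dg_smul hne] at h1
    omega
  refine ⟨hα, ?_⟩
  have h2 := (dg_aeval (dg_gx g 2) q).1
  have h3 := h1.2.1
  by_contra hne
  have h4 : dg (g (x K 2)) ≤ q.natDegree * dg (g (x K 2)) :=
    Nat.le_mul_of_pos_left _ (Nat.pos_of_ne_zero hne)
  omega

include hnt hle hd

theorem small_const : ∀ Q ∈ (B : Subalgebra K (A K)), dg (g Q) < dg (g (x K 2)) →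
    dg (g Q) = 0 := by
  intro Q
  induction hn : dg (g Q) using Nat.strong_induction_on generalizing Q with
  | _ n ih =>
    intro hQ hlt
    obtain ⟨r, u, v, hr⟩ := exists_rep g 1 hQ
    have hb := dg_br_le (g Q) (g (x K 2))
    have hc : ∀ k, dg (g (u k)) + dg (g (v k)) = 0 := by
      intro k
      have h1 := nd g hQ (br_gx_ne g (by decide)) hr k
      have h2 := ih (dg (g (u k))) (by omega) (u k) rfl (hr.mu k) (by omega)
      have h3 := ih (dg (g (v k))) (by omega) (v k) rfl (hr.mv k) (by omega)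
      omega
    obtain ⟨α, q, hQe⟩ := form_of_const hQ hr hc
    have h4 := small_aux g hnt hle (α := α) (q := q) (by rw [← hQe]; omega)
    have h5 : g Q = aeval (g (x K 2)) q := by rw [hQe, h4.1, zero_smul, zero_add, map_q2]
    rw [← hn, h5, (dg_aeval (dg_gx g 2) q).1, h4.2, zero_mul]

theorem small_form (Q : A K) (hQ : Q ∈ (B : Subalgebra K (A K)))
    (h : dg (g Q) < dg (br (g (x K 1)) (g (x K 2)))) :
    ∃ (α : K) (q : K[X]), Q = α • x K 1 + q2 q := by
  obtain ⟨r, u, v, hr⟩ := exists_rep g 1 hQ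
  have hb := dg_br_le (g Q) (g (x K 2))
  apply form_of_const hQ hr
  intro k
  have h1 := nd g hQ (br_gx_ne g (by decide)) hr k
  have h2 := small_const g hnt hle hd (u k) (hr.mu k) (by omega)
  have h3 := small_const g hnt hle hd (v k) (hr.mv k) (by omega)
  omega

end small

theorem pf_p1 (g : Gp K) (P : A K) (hP : P ∈ (B : Subalgebra K (A K)))
    (hnc : ¬ Com (g (x K 1)) (g (x K 2))) (hle : dg (g (x K 2)) ≤ dg (g (x K 1)))
    (hd : dg (g P) < dg (g (x K 1)) + dg (g (x K 2))) :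
    ∃ (α : K) (q : K[X]), P = α • x K 1 + q2 q := by
  have h1 := (dg_br hnc).1
  have h2 := dg_gx g 1
  exact small_form g (fun h => hnc h.1) hle (by omega) P hP (by omega)

theorem pf_p2' (g : Gp K) (P : A K) (hP : P ∈ (B : Subalgebra K (A K)))
    (_ : Com (g (x K 1)) (g (x K 2))) (hlt : dg (g (x K 2)) < dg (g (x K 1)))
    (hnd : ¬ dg (g (x K 2)) ∣ dg (g (x K 1))) (hS : S2 (g (x K 1)) (g (x K 2)))
    (hd : dg (g P) < dg (br (g (x K 1)) (g (x K 2)))) :
    ∃ (α : K) (q : K[X]), P = α • x K 1 + q2 q :=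
  small_form g (fun h => hnd h.2) hlt.le hS.1 P hP hd

omit [CharZero K] in
theorem dg_br_lt {u b : A K} (hu : dg u ≠ 0) (hb : dg b ≠ 0) (h : Com u b) :
    dg (br u b) < dg u + dg b := by
  have hu0 : u ≠ 0 := fun h => hu (by rw [h, dg_zero])
  have hb0 : b ≠ 0 := fun h => hb (by rw [h, dg_zero])
  have e1 : dg (u * b) = dg u + dg b := dg_mul hu0 hb0
  have e2 : dg (b * u) = dg b + dg u := dg_mul hb0 hu0
  have h3 := dg_sub_lt (a := u * b) (b := b * u) (by omega)
    (by rw [lf_mul, lf_mul]; exact h) (by omega)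
  rw [e1] at h3
  exact h3

theorem pf_p1b (g : Gp K) (P : A K) (hP : P ∈ (B : Subalgebra K (A K)))
    (hnc : ¬ Com (g (x K 1)) (g (x K 2))) (hc : Com (g P) (g (x K 2))) :
    ∃ (c : K) (s : ℕ), lf (g P) = c • lf (g (x K 2)) ^ s := by
  by_cases h0 : dg (g P) = 0
  · obtain ⟨c, hc⟩ := dg_eq_zero.mp h0
    refine ⟨c, 0, ?_⟩
    have : lf (g P) = algebraMap K (A K) c := by
      rw [hc, lf, AlgHom.commutes]
      exact leadingCoeff_C _
    rw [this, pow_zero, Algebra.algebraMap_eq_smul_one]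
  · obtain ⟨r, u, v, hr⟩ := exists_rep g 1 hP
    have h1 := (dg_br hnc).1
    have h2 := dg_br_lt h0 (dg_gx g 2) hc
    have hdvd : dg (g (x K 2)) ∣ dg (g P) := by
      apply f1star g hP hr
      intro k
      have := nd g hP (br_gx_ne g (by decide)) hr k
      omega
    obtain ⟨c, hc'⟩ := pf_c0 (g P) (g (x K 2)) (dg_gx g 2) hc hdvd
    exact ⟨c, _, hc'⟩

end Pool.Agent.H17.TA
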