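import Pool.Agent.H66.TA.Deg

/-!
A generic representation of the free algebra by weighted cyclic shifts.
-/

namespace Pool.Agent.H17.TA

open Pool.Agent.H66.TA FreeAlgebra

variable {K : Type*} [Field K] (N : ℕ)

/-- The polynomial ring of weights. -/
abbrev W (K : Type*) [Field K] (N : ℕ) : Type _ := MvPolynomial (Fin 3 × ZMod N) K

variable [NeZero N]

/-- The matrix of the generator `i`. -/
noncomputable def mx (K : Type*) [Field K] (N : ℕ) (i : Fin 3) :
    Matrix (ZMod N) (ZMod N) (W K N) :=
  Matrix.of fun a b => if b = a + 1 then MvPolynomial.X (i, a) else 0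

/-- The representation. -/
noncomputable def rho : A K →ₐ[K] Matrix (ZMod N) (ZMod N) (W K N) :=
  lift K (mx K N)

@[simp] theorem rho_x (i : Fin 3) : rho N (x K i) = mx K N i := by simp [rho, x]

/-- exponents of a word -/
noncomputable def ex : ZMod N → List (Fin 3) → (Fin 3 × ZMod N →₀ ℕ)
  | _, [] => 0
  | a, i :: w => Finsupp.single (i, a) 1 + ex (a + 1) w

theorem rho_mon (w : FreeMonoid (Fin 3)) (a b : ZMod N) :
    rho (K := K) N (mon w) a b =
      if b = a + (w.length : ZMod N) then MvPolynomial.monomial (ex N a w.toList) 1 else 0 := by
  induction w using FreeMonoid.inductionOn' generalizing a with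
  | one => 
    rw [mon_one, map_one, Matrix.one_apply]
    simp [ex, eq_comm]
  | of_mul i w ih =>
    rw [mon_mul, map_mul, Matrix.mul_apply, mon_of, rho_x]
    rw [Finset.sum_eq_single (a + 1)]
    · rw [ih]
      simp only [mx, Matrix.of_apply, if_true, FreeMonoid.length_mul, FreeMonoid.length_of,
        FreeMonoid.toList_mul, FreeMonoid.toList_of, Nat.cast_add, Nat.cast_one, ← add_assoc,
        List.singleton_append, ex]
      split_ifs with h
      · rw [MvPolynomial.X, MvPolynomial.monomial_mul, one_mul]
      · rw [mul_zero]
    · intro c _ hc
      simp [mx, hc]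
    · intro h
      exact absurd (Finset.mem_univ _) h

omit [NeZero N] in
theorem ex_degree (a : ZMod N) (w : List (Fin 3)) : (ex N a w).degree = w.length := by
  induction w generalizing a with
  | nil => simp [ex]
  | cons i w ih => 
    rw [ex, map_add, ih, List.length_cons, Finsupp.degree_single, add_comm]

/-- The exponent at `(i, a + s)`. -/
theorem ex_pos (a : ZMod N) (w : List (Fin 3)) (hw : w.length ≤ N) (s : ℕ) (hs : s < w.length)
    (i : Fin 3) : ex N a w (i, a + s) = if w[s] = i then 1 else 0 := by
  induction w generalizing a s with
  | nil => simp at hs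
  | cons j w ih =>
    rw [ex, Finsupp.add_apply]
    -- the first position does not occur in the tail
    have htail : ∀ (u : List (Fin 3)) (c : ZMod N) (b : ZMod N),
        (∀ t < u.length, b ≠ c + (t : ℕ)) → ex N c u (i, b) = 0 := by
      intro u
      induction u with
      | nil => intro c b _; simp [ex]
      | cons k u ihu =>
        intro c b hb
        rw [ex, Finsupp.add_apply, ihu (c + 1) b ?_]
        · have : b ≠ c := by simpa using hb 0 (by simp)
          rw [Finsupp.single_apply, if_neg]
          intro e
          exact this (congrArg Prod.snd e).symm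
        · intro t ht
          have := hb (t + 1) (by simpa using ht)
          rwa [Nat.cast_add, Nat.cast_one, add_comm (t : ZMod N) 1, ← add_assoc] at this
    cases s with
    | zero =>
      simp only [Nat.cast_zero, add_zero, List.getElem_cons_zero]
      rw [htail w (a + 1) a ?_, Finsupp.single_apply]
      · by_cases h : j = i <;> simp [h]
      · intro t ht e
        have h1 : ((t + 1 : ℕ) : ZMod N) = 0 := by
          push_cast
          have := congrArg (fun z => z - a) e
          simp only [sub_self] at this
          rw [eq_comm] at this
          rw [← this]; ring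
        rw [ZMod.natCast_eq_zero_iff] at h1
        have := Nat.le_of_dvd (Nat.succ_pos t) h1
        simp only [List.length_cons] at hw
        omega
    | succ s =>
      simp only [List.getElem_cons_succ]
      simp only [List.length_cons] at hw hs
      have h2 := ih (a + 1) (by omega) s (by omega)
      have e : a + 1 + (s : ZMod N) = a + ((s + 1 : ℕ) : ZMod N) := by push_cast; ring
      rw [e] at h2
      rw [h2, Finsupp.single_apply, if_neg, zero_add]
      intro e
      have e2 := congrArg Prod.snd e
      simp only at e2
      have h1 : ((s + 1 : ℕ) : ZMod N) = 0 := by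
        have := congrArg (fun z => z - a) e2
        simp only [sub_self] at this
        rw [this]; ring
      rw [ZMod.natCast_eq_zero_iff] at h1
      have := Nat.le_of_dvd (Nat.succ_pos s) h1
      omega

theorem ex_inj (a : ZMod N) (v w : List (Fin 3)) (hw : w.length ≤ N) (h : ex N a v = ex N a w) :
    v = w := by
  have hl : v.length = w.length := by rw [← ex_degree N a v, h, ex_degree]
  apply List.ext_getElem hl
  intro s h1 h2
  have e1 := ex_pos N a v (hl ▸ hw) s h1 v[s]
  rw [if_pos rfl, h, ex_pos N a w hw s h2] at e1
  by_contra hne
  rw [if_neg (fun e => hne e.symm)] at e1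
  exact absurd e1 (by norm_num)

/-- Reading off coefficients. -/
theorem coeff_rho (a : ZMod N) (w : FreeMonoid (Fin 3)) (hw : w.length ≤ N) (q : A K) :
    MvPolynomial.coeff (ex N a w.toList) (rho N q a (a + (w.length : ZMod N))) = co w q := by
  let F : A K →ₗ[K] K :=
    { toFun := fun q => MvPolynomial.coeff (ex N a w.toList)
        (rho N q a (a + (w.length : ZMod N)))
      map_add' := fun p q => by rw [map_add, Matrix.add_apply, MvPolynomial.coeff_add]
      map_smul' := fun c q => by
        rw [map_smul, Matrix.smul_apply, MvPolynomial.coeff_smul, RingHom.id_apply] }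
  have : F = co w := by
    apply lin_ext
    intro v
    show MvPolynomial.coeff (ex N a w.toList) (rho N (mon v) a (a + (w.length : ZMod N))) = _
    rw [rho_mon, co_mon]
    by_cases h : v = w
    · subst h
      simp
    · rw [if_neg h]
      split_ifs with h2
      · rw [MvPolynomial.coeff_monomial, if_neg]
        intro e
        exact h (FreeMonoid.toList.injective (ex_inj N a _ _ hw e))
      · simp
  exact LinearMap.congr_fun this q

/-- Two linear maps on `A` into a module agree on homogeneous elements of degree `n` if they agree
on words of length `n`. -/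
theorem hom_ext_word {M : Type*} [AddCommMonoid M] [Module K M] {n : ℕ} (F G : A K →ₗ[K] M)
    (h : ∀ w : FreeMonoid (Fin 3), w.length = n → F (mon w) = G (mon w)) {q : A K}
    (hq : Hom n q) : F q = G q := by
  have h1 : F.comp (hc n) = G.comp (hc n) := by
    apply lin_ext
    intro w
    rw [LinearMap.comp_apply, LinearMap.comp_apply, hc_apply, tp_mon, Polynomial.coeff_C_mul,
      Polynomial.coeff_X_pow]
    by_cases hw : n = w.length
    · rw [if_pos hw, mul_one, h w hw.symm]
    · rw [if_neg hw, mul_zero, map_zero, map_zero]
  have h2 : hc n q = q := by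
    rw [hc_apply, hq, Polynomial.coeff_C_mul, Polynomial.coeff_X_pow, if_pos rfl, mul_one]
  have h3 := LinearMap.congr_fun h1 q
  rwa [LinearMap.comp_apply, LinearMap.comp_apply, h2] at h3

/-- Homogeneous elements are supported on one cyclic diagonal. -/
theorem rho_eq_zero {n : ℕ} {q : A K} (hq : Hom n q) {a b : ZMod N}
    (h : b ≠ a + (n : ZMod N)) : rho N q a b = 0 := by
  let F : A K →ₗ[K] W K N :=
    { toFun := fun q => rho N q a b
      map_add' := fun p q => by rw [map_add, Matrix.add_apply]
      map_smul' := fun c q => by rw [map_smul, Matrix.smul_apply, RingHom.id_apply] }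
  have : F q = (0 : A K →ₗ[K] W K N) q := by
    apply hom_ext_word (n := n) F 0 _ hq
    intro w hw
    show rho N (mon w) a b = 0
    rw [rho_mon, if_neg]
    rw [hw]
    exact h
  exact this

/-- A nonzero homogeneous element of small degree has no zero entry on its diagonal. -/
theorem rho_ne_zero {n : ℕ} {q : A K} (hq : Hom n q) (h0 : q ≠ 0) (hn : n ≤ N) (a : ZMod N) :
    rho N q a (a + (n : ZMod N)) ≠ 0 := by
  obtain ⟨w, hw⟩ : ∃ w, co w q ≠ 0 := by
    by_contra h
    push Not at h
    exact h0 (eq_of_co (fun w => by rw [h w, map_zero]))
  have hl : w.length = n := by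
    by_contra hne
    apply hw
    have : co w q = (0 : A K →ₗ[K] K) q := by
      apply hom_ext_word (n := n) (co w) 0 _ hq
      intro v hv
      rw [co_mon, if_neg]
      · rfl
      · rintro rfl
        exact hne hv
    exact this
  intro h
  have h1 := coeff_rho N a w (by omega) q
  rw [hl, h, MvPolynomial.coeff_zero] at h1
  exact hw h1.symm

/-- Homogeneous components. -/
theorem rho_hc (n : ℕ) (q : A K) (a b : ZMod N) :
    rho N (hc n q) a b = MvPolynomial.homogeneousComponent n (rho N q a b) := by
  let F : A K →ₗ[K] W K N :=
    { toFun := fun q => rho N q a b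
      map_add' := fun p q => by rw [map_add, Matrix.add_apply]
      map_smul' := fun c q => by rw [map_smul, Matrix.smul_apply, RingHom.id_apply] }
  have : F.comp (hc n) = (MvPolynomial.homogeneousComponent n).comp F := by
    apply lin_ext
    intro w
    show rho N (hc n (mon w)) a b = MvPolynomial.homogeneousComponent n (rho N (mon w) a b)
    have hh : MvPolynomial.IsHomogeneous (rho (K := K) N (mon w) a b) w.length := by
      rw [rho_mon]
      split_ifs
      · apply MvPolynomial.isHomogeneous_monomial
        rw [ex_degree]
        rfl
      · exact MvPolynomial.isHomogeneous_zero _ _ _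
    rw [MvPolynomial.homogeneousComponent_of_mem hh, hc_apply, tp_mon, Polynomial.coeff_C_mul,
      Polynomial.coeff_X_pow]
    by_cases hn : n = w.length
    · rw [if_pos hn, if_pos hn, mul_one]
    · rw [if_neg hn, if_neg hn, mul_zero, map_zero, Matrix.zero_apply]
  exact LinearMap.congr_fun this q

end Pool.Agent.H17.TA
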