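import Pool.Agent.H17.TA.Fox

/-!
Existence of good representations of Fox derivatives.
-/

namespace Pool.Agent.H17.TA

open Pool.Agent.H66.TA FreeAlgebra Polynomial
open scoped TensorProduct

variable {K : Type*} [Field K]

/-- The tensors of `B ⊗ B`. -/
def BB : Submodule K (A K ⊗[K] A K) :=
  Submodule.span K {t | ∃ u ∈ (B : Subalgebra K (A K)), ∃ v ∈ (B : Subalgebra K (A K)),
    t = u ⊗ₜ[K] v}

theorem BB_left {P : A K} (hP : P ∈ (B : Subalgebra K (A K))) {M : A K ⊗[K] A K}
    (hM : M ∈ (BB : Submodule K _)) : (P ⊗ₜ[K] (1 : A K)) * M ∈ (BB : Submodule K _) := by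
  induction hM using Submodule.span_induction with
  | mem t ht =>
    obtain ⟨u, hu, v, hv, rfl⟩ := ht
    rw [Algebra.TensorProduct.tmul_mul_tmul, one_mul]
    exact Submodule.subset_span ⟨_, B.mul_mem hP hu, _, hv, rfl⟩
  | zero => rw [mul_zero]; exact Submodule.zero_mem _
  | add a b _ _ ha hb => rw [mul_add]; exact Submodule.add_mem _ ha hb
  | smul c a _ ha => rw [mul_smul_comm]; exact Submodule.smul_mem _ _ ha

theorem BB_right {Q : A K} (hQ : Q ∈ (B : Subalgebra K (A K))) {M : A K ⊗[K] A K}
    (hM : M ∈ (BB : Submodule K _)) : M * ((1 : A K) ⊗ₜ[K] Q) ∈ (BB : Submodule K _) := by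
  induction hM using Submodule.span_induction with
  | mem t ht =>
    obtain ⟨u, hu, v, hv, rfl⟩ := ht
    rw [Algebra.TensorProduct.tmul_mul_tmul, mul_one]
    exact Submodule.subset_span ⟨_, hu, _, B.mul_mem hv hQ, rfl⟩
  | zero => rw [zero_mul]; exact Submodule.zero_mem _
  | add a b _ _ ha hb => rw [add_mul]; exact Submodule.add_mem _ ha hb
  | smul c a _ ha => rw [smul_mul_assoc]; exact Submodule.smul_mem _ _ ha

theorem dd_mem_BB (k : Fin 3) {P : A K} (hP : P ∈ (B : Subalgebra K (A K))) :
    dd k P ∈ (BB : Submodule K _) := by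
  induction hP using Algebra.adjoin_induction with
  | mem y hy =>
    have h1 : (1 : A K ⊗[K] A K) ∈ (BB : Submodule K _) :=
      Submodule.subset_span ⟨1, B.one_mem, 1, B.one_mem, rfl⟩
    rcases hy with rfl | rfl
    · rw [dd_x]
      split_ifs
      · exact h1
      · exact Submodule.zero_mem _
    · rw [dd_x]
      split_ifs
      · exact h1
      · exact Submodule.zero_mem _
  | algebraMap r => rw [dd_algebraMap]; exact Submodule.zero_mem _
  | add y z _ _ hy hz => rw [map_add]; exact Submodule.add_mem _ hy hz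
  | mul y z hy' hz' hy hz =>
    rw [dd_mul]
    exact Submodule.add_mem _ (BB_left hy' hz) (BB_right hz' hy)

/-- A representation by elements of `B`. -/
def FR (M : A K ⊗[K] A K) (r : ℕ) (u v : Fin r → A K) : Prop :=
  M = ∑ i, u i ⊗ₜ[K] v i ∧ (∀ i, u i ∈ (B : Subalgebra K (A K))) ∧
    (∀ i, v i ∈ (B : Subalgebra K (A K)))

theorem exists_FR {M : A K ⊗[K] A K} (hM : M ∈ (BB : Submodule K _)) :
    ∃ r, ∃ u v : Fin r → A K, FR M r u v := by
  rw [BB, Submodule.mem_span_set'] at hM
  obtain ⟨n, f, t, ht⟩ := hM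
  choose u hu v hv huv using fun i => (t i).2
  refine ⟨n, fun i => f i • u i, v, ?_, fun i => B.smul_mem (hu i) _, hv⟩
  rw [← ht]
  apply Finset.sum_congr rfl
  intro i _
  rw [huv i, TensorProduct.smul_tmul']

theorem FR.remove {M : A K ⊗[K] A K} {n : ℕ} {u v : Fin (n + 1) → A K} (h : FR M (n + 1) u v)
    {i : Fin (n + 1)} (hi : u i = 0) :
    FR M n (fun j => u (i.succAbove j)) (fun j => v (i.succAbove j)) := by
  refine ⟨?_, fun j => h.2.1 _, fun j => h.2.2 _⟩
  rw [h.1, Fin.sum_univ_succAbove _ i, hi, TensorProduct.zero_tmul, zero_add]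

theorem hc_lf (n : ℕ) (z : A K) : hc n (lf z) = if dg z = n then lf z else 0 := by
  have h := hom_lf z
  rw [hc_apply, h, coeff_C_mul, coeff_X_pow]
  by_cases hn : n = dg z
  · rw [if_pos hn, if_pos hn.symm, mul_one]
  · rw [if_neg hn, if_neg (fun e => hn e.symm), mul_zero]

theorem exists_rep (g : Gp K) (k : Fin 3) {P : A K} (hP : P ∈ (B : Subalgebra K (A K))) :
    ∃ (r : ℕ) (u v : Fin r → A K), Rep g k P u v := by
  classical
  have hex := exists_FR (dd_mem_BB k hP)
  set r := Nat.find hex with hr
  have hrmin : ∀ n < r, ∀ u v : Fin n → A K, ¬ FR (dd k P) n u v := by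
    intro n hn u v h
    exact Nat.find_min hex hn ⟨u, v, h⟩
  have hex2 : ∃ s, ∃ u v : Fin r → A K, FR (dd k P) r u v ∧ ∑ i, dg (g (v i)) = s := by
    obtain ⟨u, v, h⟩ := Nat.find_spec hex
    exact ⟨_, u, v, h, rfl⟩
  obtain ⟨u, v, h, hs⟩ := Nat.find_spec hex2
  set s := Nat.find hex2 with hs'
  have hsmin : ∀ u v : Fin r → A K, FR (dd k P) r u v → s ≤ ∑ i, dg (g (v i)) := by
    intro u v h
    by_contra hlt
    rw [not_le] at hlt
    exact Nat.find_min hex2 hlt ⟨u, v, h, rfl⟩
  -- no zero
  have hnz : ∀ u v : Fin r → A K, FR (dd k P) r u v → ∀ i, u i ≠ 0 := by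
    intro u v h i hi
    clear_value r
    obtain _ | n := r
    · exact Fin.elim0 i
    · exact hrmin n (Nat.lt_succ_self n) _ _ (h.remove hi)
  refine ⟨r, u, v, h.1, h.2.1, h.2.2, hnz u v h, ?_⟩
  by_contra hli
  rw [Fintype.not_linearIndependent_iff] at hli
  obtain ⟨c, hc0, i1, hi1⟩ := hli
  set n := dg (g (v i1)) with hn
  let d : Fin r → K := fun i => if dg (g (v i)) = n then c i / c i1 else 0
  have hd1 : d i1 = 1 := by
    show (if dg (g (v i1)) = n then c i1 / c i1 else 0) = 1
    rw [if_pos rfl, div_self hi1]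
  -- the new vector
  let v' : A K := ∑ i, d i • v i
  have hv' : v' ∈ (B : Subalgebra K (A K)) := B.sum_mem (fun i _ => B.smul_mem (h.2.2 i) _)
  have hdeg : dg (g v') ≤ n := by
    have : g v' ∈ Fil (K := K) n := by
      show g (∑ i, d i • v i) ∈ Fil (K := K) n
      rw [map_sum]
      apply Submodule.sum_mem
      intro i _
      rw [map_smul]
      show _ ∈ Fil n
      by_cases hi : dg (g (v i)) = n
      · exact Submodule.smul_mem _ _ (le_of_eq hi)
      · have : d i = 0 := if_neg hi
        rw [this, zero_smul]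
        exact Submodule.zero_mem _
    exact this
  have hhc : hc n (g v') = 0 := by
    have h1 : hc n (g v') = ∑ i, d i • hc n (g (v i)) := by
      show hc n (g (∑ i, d i • v i)) = _
      rw [map_sum, map_sum]
      apply Finset.sum_congr rfl
      intro i _
      rw [map_smul, map_smul]
    have h2 : ∀ i, d i • hc n (g (v i)) = (c i1)⁻¹ • (c i • hc n (lf (g (v i)))) := by
      intro i
      rw [hc_lf]
      by_cases hi : dg (g (v i)) = n
      · have : d i = c i / c i1 := if_pos hi
        rw [this, if_pos hi, smul_smul, lf_eq_hc, hi, div_eq_inv_mul]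
      · have : d i = 0 := if_neg hi
        rw [this, if_neg hi, zero_smul, smul_zero, smul_zero]
    rw [h1, Finset.sum_congr rfl (fun i _ => h2 i), ← Finset.smul_sum]
    have h3 := congrArg (hc n) hc0
    rw [map_sum, map_zero] at h3
    simp only [map_smul] at h3
    rw [h3, smul_zero]
  -- the new representation
  let w : Fin r → A K := fun i => u i - d i • u i1
  have hw1 : w i1 = 0 := by
    show u i1 - d i1 • u i1 = 0
    rw [hd1, one_smul, sub_self]
  have hwB : ∀ i, w i ∈ (B : Subalgebra K (A K)) := fun i =>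
    B.sub_mem (h.2.1 i) (B.smul_mem (h.2.1 i1) _)
  have hsum : dd k P = ∑ i, w i ⊗ₜ[K] v i + u i1 ⊗ₜ[K] v' := by
    have h1 : ∀ i, w i ⊗ₜ[K] v i = u i ⊗ₜ[K] v i - u i1 ⊗ₜ[K] (d i • v i) := by
      intro i
      show (u i - d i • u i1) ⊗ₜ[K] v i = _
      rw [TensorProduct.sub_tmul, TensorProduct.smul_tmul]
    rw [Finset.sum_congr rfl (fun i _ => h1 i), Finset.sum_sub_distrib, ← TensorProduct.tmul_sum,
      sub_add_cancel]
    exact h.1
  by_cases hv0 : v' = 0
  · apply hnz w v _ i1 hw1
    refine ⟨?_, hwB, h.2.2⟩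
    rw [hsum, hv0, TensorProduct.tmul_zero, add_zero]
  · have hlt : dg (g v') < n := by
      apply lt_of_le_of_ne hdeg
      intro e
      have h1 : lf (g v') = 0 := by rw [lf_eq_hc, e]; exact hhc
      rw [lf_eq_zero] at h1
      exact hv0 ((map_eq_zero_iff g g.injective).mp h1)
    have hnew : FR (dd k P) r (Function.update w i1 (u i1)) (Function.update v i1 v') := by
      refine ⟨?_, ?_, ?_⟩
      · rw [hsum, ← Finset.add_sum_erase _ _ (Finset.mem_univ i1), hw1, TensorProduct.zero_tmul,
          zero_add, ← Finset.add_sum_erase _ (fun i => Function.update w i1 (u i1) i ⊗ₜ[K]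
            Function.update v i1 v' i) (Finset.mem_univ i1), Function.update_self,
          Function.update_self, add_comm]
        congr 1
        apply Finset.sum_congr rfl
        intro i hi
        have hne : i ≠ i1 := Finset.ne_of_mem_erase hi
        rw [Function.update_of_ne hne, Function.update_of_ne hne]
      · intro i
        by_cases hi : i = i1
        · subst hi; rw [Function.update_self]; exact h.2.1 _
        · rw [Function.update_of_ne hi]; exact hwB i
      · intro i
        by_cases hi : i = i1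
        · subst hi; rw [Function.update_self]; exact hv'
        · rw [Function.update_of_ne hi]; exact h.2.2 i
    have h1 := hsmin _ _ hnew
    rw [← hs, ← Finset.add_sum_erase _ _ (Finset.mem_univ i1),
      ← Finset.add_sum_erase _ (fun i => dg (g (Function.update v i1 v' i)))
        (Finset.mem_univ i1), Function.update_self] at h1
    have h2 : ∑ i ∈ Finset.univ.erase i1, dg (g (Function.update v i1 v' i)) =
        ∑ i ∈ Finset.univ.erase i1, dg (g (v i)) := by
      apply Finset.sum_congr rfl
      intro i hi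
      rw [Function.update_of_ne (Finset.ne_of_mem_erase hi)]
    rw [h2] at h1
    omega

end Pool.Agent.H17.TA
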