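import Pool.Agent.H17.TA.Layer
import Pool.Agent.H17.TA.Core

/-!
The generic pair of representations has all the required properties.
-/

namespace Pool.Agent.H17.TA

open Pool.Agent.H66.TA FreeAlgebra Polynomial

/-- An injective commutator-like endomorphism of a matrix ring over a domain has torsion cokernel. -/
theorem exists_solution {R n : Type*} [CommRing R] [IsDomain R] [Fintype n] [DecidableEq n]
    (r1 r2 : Matrix n n R) (hinj : ∀ X : Matrix n n R, r1 * X = X * r2 → X = 0)
    (Y : Matrix n n R) :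
    ∃ Δ : R, Δ ≠ 0 ∧ ∃ S : Matrix n n R, r1 * S = S * r2 + Δ • Y := by
  let e : (n → n → R) ≃ₗ[R] (n × n → R) := (LinearEquiv.curry R R n n).symm
  let φ : Matrix n n R →ₗ[R] Matrix n n R :=
    LinearMap.mulLeft R r1 - LinearMap.mulRight R r2
  have hφ : ∀ X, φ X = r1 * X - X * r2 := fun X => rfl
  let e' : Matrix n n R ≃ₗ[R] (n × n → R) := e
  let f : (n × n → R) →ₗ[R] (n × n → R) := e'.toLinearMap.comp (φ.comp e'.symm.toLinearMap)
  let M := LinearMap.toMatrix' f
  have hM : ∀ v, M.mulVec v = f v := fun v => LinearMap.toMatrix'_mulVec f v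
  have hdet : M.det ≠ 0 := by
    intro h0
    obtain ⟨v, hv, hv0⟩ := Matrix.exists_mulVec_eq_zero_iff.mpr h0
    rw [hM] at hv0
    apply hv
    have h1 : φ (e'.symm v) = 0 := by
      apply e'.injective
      rw [map_zero]
      exact hv0
    rw [hφ, sub_eq_zero] at h1
    have h2 := hinj _ h1
    exact (LinearEquiv.map_eq_zero_iff e'.symm).mp h2
  refine ⟨M.det, hdet, e'.symm (M.adjugate.mulVec (e' Y)), ?_⟩
  have h1 : f (M.adjugate.mulVec (e' Y)) = M.det • e' Y := by
    rw [← hM, Matrix.mulVec_mulVec, Matrix.mul_adjugate, Matrix.smul_mulVec, Matrix.one_mulVec]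
  have h2 : φ (e'.symm (M.adjugate.mulVec (e' Y))) = M.det • Y := by
    apply e'.injective
    rw [map_smul]
    exact h1
  rw [hφ, sub_eq_iff_eq_add] at h2
  rw [h2, add_comm]

/-- The same for polynomials over a matrix ring. -/
theorem exists_solution' {L n : Type*} [CommRing L] [IsDomain L] [Fintype n] [DecidableEq n]
    (r1 r2 : (Matrix n n L)[X]) (hinj : ∀ Z : (Matrix n n L)[X], r1 * Z = Z * r2 → Z = 0)
    (Y : (Matrix n n L)[X]) :
    ∃ Δ : L[X], Δ ≠ 0 ∧ ∃ S : (Matrix n n L)[X],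
      r1 * S = S * r2 + Δ.map (algebraMap L (Matrix n n L)) * Y := by
  obtain ⟨Δ, hΔ, S, hS⟩ := exists_solution (matPolyEquiv.symm r1) (matPolyEquiv.symm r2)
    (fun Z hZ => by
      have h1 := congrArg matPolyEquiv hZ
      rw [map_mul, map_mul, AlgEquiv.apply_symm_apply, AlgEquiv.apply_symm_apply] at h1
      have h2 := hinj _ h1
      exact (EmbeddingLike.map_eq_zero_iff (f := matPolyEquiv)).mp h2) (matPolyEquiv.symm Y)
  refine ⟨Δ, hΔ, matPolyEquiv S, ?_⟩
  have h1 := congrArg matPolyEquiv hS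
  rw [map_mul, map_add, map_mul, AlgEquiv.apply_symm_apply, AlgEquiv.apply_symm_apply] at h1
  rw [h1]
  congr 1
  have h2 : Δ • matPolyEquiv.symm Y = (Δ • (1 : Matrix n n L[X])) * matPolyEquiv.symm Y := by
    rw [smul_mul_assoc, one_mul]
  rw [h2, map_mul, matPolyEquiv_smul_one, AlgEquiv.apply_symm_apply]

theorem good (K : Type*) [Field K] (N : ℕ) [NeZero N] {L0 : Type*} [CommRing L0] [IsDomain L0]
    [Algebra K L0] (π : WPair K N L0) : Good (Polynomial L0) (t1 N π) (t2 N π) N where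
  tens := fun r n hn S hS u v m hm hu hv hu0 hli X hX =>
    inj_tensor N π hn S hS u v m hm hu hv hu0 hli X hX
  comm := fun m hm hmN h hh h0 X hX => inj_comm N π hm hmN hh h0 X hX
  der := by
    obtain ⟨D, hD, hx⟩ := exists_der (t1 N π) (t2 N π) (fun i => t1 N π (x K i) * ones N L0)
    refine ⟨D, hD, ?_⟩
    intro m n h q hh hq hm hn hN h0 Δ S hΔ hS hqS
    exact comm_of_der N π ⟨hD, hx⟩ hh hq hm hn hN h0 hΔ hS hqS
  sol := fun r1 r2 hinj Y => exists_solution' r1 r2 hinj Y

end Pool.Agent.H17.TA
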