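import Pool.Agent.H17.TA.Rep

/-!
The leading form of a nonzero commutator `[f, P]` never commutes with the leading form of `f`.
-/

namespace Pool.Agent.H17.TA

open Pool.Agent.H66.TA FreeAlgebra

variable {K : Type*} [Field K] (N : ℕ) [NeZero N]

/-- Support of products. -/
theorem rho_mul_apply {m : ℕ} {p q : A K} (hp : Hom m p) (a b : ZMod N) :
    rho N (p * q) a b = rho N p a (a + (m : ZMod N)) * rho N q (a + (m : ZMod N)) b := by
  rw [map_mul, Matrix.mul_apply, Finset.sum_eq_single (a + (m : ZMod N))]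
  · intro c _ hc
    rw [rho_eq_zero N hp hc, zero_mul]
  · intro h
    exact absurd (Finset.mem_univ _) h

theorem hom_pow {m : ℕ} {p : A K} (hp : Hom m p) (j : ℕ) : Hom (m * j) (p ^ j) := by
  induction j with
  | zero => rw [Hom, pow_zero, mul_zero, pow_zero, map_one, map_one, one_mul]
  | succ j ih =>
    rw [pow_succ, Nat.mul_succ]
    exact ih.mul hp

theorem rho_pow_ne {m : ℕ} {p : A K} (hp : Hom m p) (h0 : p ≠ 0) (hm : m ≤ N) (j : ℕ)
    (a : ZMod N) : rho N (p ^ j) a (a + ((m * j : ℕ) : ZMod N)) ≠ 0 := by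
  induction j generalizing a with
  | zero =>
    rw [pow_zero, map_one, mul_zero, Nat.cast_zero, add_zero, Matrix.one_apply_eq]
    exact one_ne_zero
  | succ j ih =>
    rw [pow_succ', rho_mul_apply N hp]
    apply mul_ne_zero (rho_ne_zero N hp h0 hm a)
    have := ih (a + (m : ZMod N))
    have e : a + ((m * (j + 1) : ℕ) : ZMod N) = a + (m : ZMod N) + ((m * j : ℕ) : ZMod N) := by
      push_cast; ring
    rwa [e]

theorem exists_mul_add_dvd {k m N : ℕ} (hN : N.Prime) (hm : 0 < m) (hmN : m < N) :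
    ∃ j : ℕ, N ∣ k + m * j := by
  have : Fact N.Prime := ⟨hN⟩
  have h0 : (m : ZMod N) ≠ 0 := by
    intro h
    rw [ZMod.natCast_eq_zero_iff] at h
    exact absurd (Nat.le_of_dvd hm h) (by omega)
  refine ⟨(-(k : ZMod N) * (m : ZMod N)⁻¹).val, ?_⟩
  rw [← ZMod.natCast_eq_zero_iff]
  push_cast
  rw [ZMod.natCast_val, ZMod.cast_id', id_eq]
  rw [mul_comm, mul_assoc, inv_mul_cancel₀ h0, mul_one, add_neg_cancel]

theorem trace_rho_comm (p q : A K) : Matrix.trace (rho N (p * q - q * p)) = 0 := by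
  rw [map_sub, Matrix.trace_sub, map_mul, map_mul, Matrix.trace_mul_comm, sub_self]

theorem tprime [CharZero K] (f P : A K) (hD : f * P - P * f ≠ 0) :
    ¬ Commute (lf (f * P - P * f)) (lf f) := by
  intro hcm
  set D := f * P - P * f with hDdef
  have hf0 : f ≠ 0 := by
    rintro rfl
    apply hD
    rw [hDdef]; simp
  have hm : 0 < dg f := by
    rcases Nat.eq_zero_or_pos (dg f) with h | h
    · exfalso
      obtain ⟨c, hc'⟩ := dg_eq_zero.mp h
      apply hD
      rw [hDdef, hc', Algebra.commutes, sub_self]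
    · exact h
  obtain ⟨N, hNge, hNp⟩ := Nat.exists_infinite_primes (dg f + dg D + 1)
  have : NeZero N := ⟨hNp.ne_zero⟩
  have : Fact N.Prime := ⟨hNp⟩
  obtain ⟨j, hj⟩ := exists_mul_add_dvd (k := dg D) hNp hm (by omega : dg f < N)
  set q := lf D * lf f ^ j with hq
  have hqh : Hom (dg D + dg f * j) q := (hom_lf D).mul (hom_pow (hom_lf f) j)
  have hcast : ((dg D + dg f * j : ℕ) : ZMod N) = 0 := (ZMod.natCast_eq_zero_iff _ _).mpr hj
  -- the diagonal entries
  have hdiag : ∀ a : ZMod N, rho N q a a ≠ 0 := by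
    intro a
    rw [hq, rho_mul_apply N (hom_lf D)]
    apply mul_ne_zero (rho_ne_zero N (hom_lf D) (lf_ne_zero hD) (by omega) a)
    have := rho_pow_ne N (hom_lf f) (lf_ne_zero hf0) (by omega) j (a + (dg D : ZMod N))
    have e : a + (dg D : ZMod N) + ((dg f * j : ℕ) : ZMod N) = a := by
      rw [add_assoc, ← Nat.cast_add, hcast, add_zero]
    rwa [e] at this
  have hcomm : q * lf f = lf f * q := by
    rw [hq]
    have h1 : Commute (lf D * lf f ^ j) (lf f) := hcm.mul_left ((Commute.refl _).pow_left j)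
    exact h1
  have hstep : ∀ a : ZMod N, rho N q a a = rho N q (a + (dg f : ZMod N)) (a + (dg f : ZMod N)) := by
    intro a
    have h1 := rho_mul_apply N hqh (q := lf f) a (a + (dg f : ZMod N))
    have h2 := rho_mul_apply N (hom_lf f) (q := q) a (a + (dg f : ZMod N))
    rw [hcast, add_zero] at h1
    rw [hcomm, h2, mul_comm] at h1
    exact (mul_right_cancel₀ (rho_ne_zero N (hom_lf f) (lf_ne_zero hf0) (by omega) a) h1).symm
  have hconst : ∀ a : ZMod N, rho N q a a = rho N q 0 0 := by
    have h1 : ∀ n : ℕ, rho N q ((n * dg f : ℕ) : ZMod N) ((n * dg f : ℕ) : ZMod N) = rho N q 0 0 := by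
      intro n
      induction n with
      | zero => simp
      | succ n ih =>
        have := hstep ((n * dg f : ℕ) : ZMod N)
        have e : (((n + 1) * dg f : ℕ) : ZMod N) = ((n * dg f : ℕ) : ZMod N) + (dg f : ZMod N) := by
          push_cast; ring
        rw [← ih, this, e]
    intro a
    have h0 : ((dg f : ℕ) : ZMod N) ≠ 0 := by
      intro h
      rw [ZMod.natCast_eq_zero_iff] at h
      exact absurd (Nat.le_of_dvd hm h) (by omega)
    have h2 := h1 (a * ((dg f : ℕ) : ZMod N)⁻¹).val
    have e : (((a * ((dg f : ℕ) : ZMod N)⁻¹).val * dg f : ℕ) : ZMod N) = a := by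
      push_cast
      rw [ZMod.natCast_val, ZMod.cast_id', id_eq]
      field_simp
    rwa [e] at h2
  -- the trace of `ρ(q)` is nonzero
  have htr : Matrix.trace (rho N q) ≠ 0 := by
    rw [Matrix.trace]
    simp only [Matrix.diag_apply]
    rw [Finset.sum_congr rfl (fun a _ => hconst a), Finset.sum_const, Finset.card_univ, ZMod.card,
      nsmul_eq_mul]
    apply mul_ne_zero _ (hdiag 0)
    exact Nat.cast_ne_zero.mpr hNp.ne_zero
  -- but it is a homogeneous component of zero
  apply htr
  have h1 : Matrix.trace (rho N (D * f ^ j)) = 0 := by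
    have : D * f ^ j = f * (P * f ^ j) - (P * f ^ j) * f := by
      have h2 : f ^ j * f = f * f ^ j := by rw [← pow_succ, ← pow_succ']
      rw [hDdef, sub_mul, mul_assoc, mul_assoc P f, mul_assoc P (f ^ j), h2]
    rw [this]
    exact trace_rho_comm N _ _
  have h2 : q = hc (dg D + dg f * j) (D * f ^ j) := by
    have h3 : dg (D * f ^ j) = dg D + dg f * j := by
      rw [dg_mul hD (pow_ne_zero _ hf0), dg_pow, mul_comm]
    rw [← h3, ← lf_eq_hc, lf_mul, lf_pow]
  rw [h2, Matrix.trace]
  simp only [Matrix.diag_apply]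
  rw [Finset.sum_congr rfl (fun a _ => rho_hc N _ _ a a), ← map_sum]
  have h3 : ∑ a, rho N (D * f ^ j) a a = 0 := h1
  rw [h3, map_zero]

end Pool.Agent.H17.TA
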